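import Mathlib

set_option autoImplicit false

/-! The Cartier operator on power series over a finite field, and the finiteness of the orbit
of an algebraic series. -/

namespace Pool.Agent.H629Z.Yao

open PowerSeries

/-- the standing data: `q` is a positive power of the characteristic, `τ` the `q`-th root -/
structure Setup {L : Type} [Field L] (q : ℕ) (τ : L →+* L) : Prop where
  pw : ∃ p k : ℕ, p.Prime ∧ CharP L p ∧ 0 < k ∧ q = p ^ k
  root : ∀ x, τ x ^ q = x

variable {L : Type} [Field L] {q : ℕ} {τ : L →+* L}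

theorem Setup.two_le (h : Setup q τ) : 2 ≤ q := by
  obtain ⟨p, k, hp, -, hk, rfl⟩ := h.pw
  calc 2 ≤ p := hp.two_le
    _ = p ^ 1 := (pow_one p).symm
    _ ≤ p ^ k := Nat.pow_le_pow_right hp.pos hk

theorem Setup.cast_q (h : Setup q τ) : (q : L) = 0 := by
  obtain ⟨p, k, hp, hc, hk, rfl⟩ := h.pw
  rw [Nat.cast_pow, CharP.cast_eq_zero L p, zero_pow hk.ne']

theorem Setup.add_pow (h : Setup q τ) (e : ℕ) (f g : L⟦X⟧) :
    (f + g) ^ q ^ e = f ^ q ^ e + g ^ q ^ e := by
  obtain ⟨p, k, hp, hc, hk, rfl⟩ := h.pw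
  haveI := Fact.mk hp
  haveI : CharP L⟦X⟧ p := charP_of_injective_ringHom (f := (C : L →+* L⟦X⟧)) C_injective p
  rw [← pow_mul, add_pow_char_pow]

theorem Setup.sub_pow (h : Setup q τ) (e : ℕ) (f g : L⟦X⟧) :
    (f - g) ^ q ^ e = f ^ q ^ e - g ^ q ^ e := by
  obtain ⟨p, k, hp, hc, hk, rfl⟩ := h.pw
  haveI := Fact.mk hp
  haveI : CharP L⟦X⟧ p := charP_of_injective_ringHom (f := (C : L →+* L⟦X⟧)) C_injective p
  rw [← pow_mul, sub_pow_char_pow]

theorem Setup.sub_powL (h : Setup q τ) (e : ℕ) (x y : L) :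
    (x - y) ^ q ^ e = x ^ q ^ e - y ^ q ^ e := by
  obtain ⟨p, k, hp, hc, hk, rfl⟩ := h.pw
  haveI := Fact.mk hp
  rw [← pow_mul, sub_pow_char_pow]

theorem Setup.pow_inj (h : Setup q τ) (e : ℕ) {x y : L} (hxy : x ^ q ^ e = y ^ q ^ e) : x = y := by
  have h1 := h.sub_powL e x y
  rw [hxy, sub_self] at h1
  exact sub_eq_zero.1 (pow_eq_zero_iff (pow_ne_zero e (by have := h.two_le; omega)) |>.1 h1)

theorem Setup.root' (h : Setup q τ) (x : L) : τ (x ^ q) = x := by
  apply h.pow_inj 1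
  rw [pow_one, h.root]

theorem Setup.coeff_pow (h : Setup q τ) (B : L⟦X⟧) (l : ℕ) :
    coeff l (B ^ q) = if q ∣ l then coeff (l / q) B ^ q else 0 := by
  obtain ⟨p, k, hp, hc, hk, rfl⟩ := h.pw
  haveI := Fact.mk hp
  have h1 : PowerSeries.map (iterateFrobenius L p k)
      (PowerSeries.expand (p ^ k) (pow_ne_zero k hp.ne_zero) B) = B ^ p ^ k :=
    MvPowerSeries.map_iterateFrobenius_expand p hp.ne_zero B k
  rw [← h1, coeff_map, coeff_expand]
  split_ifs
  · rw [iterateFrobenius_def]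
  · simp

/-- the Cartier operator -/
noncomputable def Car (q : ℕ) (τ : L →+* L) : L⟦X⟧ →+ L⟦X⟧ where
  toFun f := PowerSeries.mk fun n => τ (coeff (q * n + (q - 1)) f)
  map_zero' := by ext n; simp
  map_add' f g := by ext n; simp

theorem coeff_Car (f : L⟦X⟧) (n : ℕ) : coeff n (Car q τ f) = τ (coeff (q * n + (q - 1)) f) := by
  simp [Car]

theorem Car_mul_pow (h : Setup q τ) (A B : L⟦X⟧) : Car q τ (A * B ^ q) = Car q τ A * B := by
  have hq := h.two_le
  ext n
  rw [coeff_Car, coeff_mul, coeff_mul, map_sum]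
  symm
  apply Finset.sum_of_injOn (fun x : ℕ × ℕ => (q * x.1 + (q - 1), q * x.2))
  · intro x _ y _ hxy
    simp only [Prod.mk.injEq] at hxy
    have h1 : x.1 = y.1 := Nat.eq_of_mul_eq_mul_left (by omega : 0 < q) (by omega)
    have h2 : x.2 = y.2 := Nat.eq_of_mul_eq_mul_left (by omega : 0 < q) hxy.2
    exact Prod.ext h1 h2
  · intro x hx
    simp only [Finset.mem_coe, Finset.HasAntidiagonal.mem_antidiagonal] at hx ⊢
    rw [← hx]
    ring_nf
  · intro y hy hn
    rw [h.coeff_pow]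
    split_ifs with hd
    · exfalso
      apply hn
      obtain ⟨m, hm⟩ := hd
      rw [Finset.HasAntidiagonal.mem_antidiagonal] at hy
      have hmn : m ≤ n := by
        by_contra hlt
        have : q * (n + 1) ≤ q * m := Nat.mul_le_mul_left q (by omega)
        rw [mul_add] at this
        omega
      obtain ⟨i, rfl⟩ := Nat.exists_eq_add_of_le hmn
      refine ⟨(i, m), ?_, ?_⟩
      · simp [add_comm]
      · rw [mul_add] at hy
        exact Prod.ext (by simp only; omega) hm.symm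
    · simp
  · intro x _
    rw [h.coeff_pow, if_pos (dvd_mul_right _ _), Nat.mul_div_cancel_left _ (by omega), map_mul,
      h.root', coeff_Car]

theorem Car_X_pow (h : Setup q τ) (i : ℕ) (hi : i < q) :
    Car q τ (X ^ i) = if i = q - 1 then 1 else 0 := by
  have hq := h.two_le
  ext n
  rw [coeff_Car, coeff_X_pow]
  rcases Nat.eq_zero_or_pos n with rfl | hn
  · by_cases h1 : i = q - 1
    · simp [h1]
    · simp [h1, Ne.symm h1]
  · have h2 : q * 1 ≤ q * n := Nat.mul_le_mul_left q hn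
    rw [if_neg (by omega), map_zero]
    split_ifs
    · rw [coeff_one, if_neg (by omega)]
    · simp

theorem Car_one (h : Setup q τ) : Car q τ 1 = 0 := by
  have hq := h.two_le
  have := Car_X_pow h 0 (by omega)
  rwa [pow_zero, if_neg (by omega)] at this

/-- polynomials of bounded degree among power series -/
def Pol (N : ℕ) (f : L⟦X⟧) : Prop := ∀ m, N < m → coeff m f = 0

theorem Pol.coe (a : Polynomial L) {N : ℕ} (h : a.natDegree ≤ N) : Pol N (a : L⟦X⟧) := by
  intro m hm
  rw [Polynomial.coeff_coe]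
  exact Polynomial.coeff_eq_zero_of_natDegree_lt (by omega)

theorem Pol.exists {N : ℕ} {f : L⟦X⟧} (h : Pol N f) : ∃ a : Polynomial L, (a : L⟦X⟧) = f := by
  refine ⟨trunc (N + 1) f, ?_⟩
  ext m
  rw [Polynomial.coeff_coe, coeff_trunc]
  split_ifs with h1
  · rfl
  · exact (h m (by omega)).symm

theorem Pol.mono {N M : ℕ} {f : L⟦X⟧} (h : Pol N f) (hNM : N ≤ M) : Pol M f :=
  fun m hm => h m (by omega)

theorem Pol.mul {N M : ℕ} {f g : L⟦X⟧} (hf : Pol N f) (hg : Pol M g) : Pol (N + M) (f * g) := by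
  intro m hm
  rw [coeff_mul]
  apply Finset.sum_eq_zero
  intro x hx
  rw [Finset.HasAntidiagonal.mem_antidiagonal] at hx
  by_cases h1 : N < x.1
  · rw [hf _ h1, zero_mul]
  · rw [hg _ (by omega), mul_zero]

theorem Pol.add {N : ℕ} {f g : L⟦X⟧} (hf : Pol N f) (hg : Pol N g) : Pol N (f + g) := by
  intro m hm
  rw [map_add, hf m hm, hg m hm, add_zero]

theorem Pol.zero (N : ℕ) : Pol N (0 : L⟦X⟧) := fun _ _ => by simp

theorem Pol.sum {ι : Type} {N : ℕ} (s : Finset ι) (f : ι → L⟦X⟧) (h : ∀ i ∈ s, Pol N (f i)) :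
    Pol N (∑ i ∈ s, f i) := by
  intro m hm
  rw [map_sum]
  exact Finset.sum_eq_zero fun i hi => h i hi m hm

theorem Pol.car (h : Setup q τ) {N : ℕ} {f : L⟦X⟧} (hf : Pol (N + N) f) : Pol N (Car q τ f) := by
  have hq := h.two_le
  intro m hm
  have : 2 * m ≤ q * m := Nat.mul_le_mul_right m hq
  rw [coeff_Car, hf _ (by omega), map_zero]

theorem Pol.finite [Finite L] (N : ℕ) : {f : L⟦X⟧ | Pol N f}.Finite := by
  apply Set.Finite.of_finite_image (f := fun f : L⟦X⟧ => fun i : Fin (N + 1) => coeff i f)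
  · exact Set.toFinite _
  · intro f hf g hg hfg
    ext m
    by_cases hm : N < m
    · rw [hf m hm, hg m hm]
    · exact congrFun hfg ⟨m, by omega⟩

theorem algebraMap_eq (a : Polynomial L) : algebraMap (Polynomial L) L⟦X⟧ a = (a : L⟦X⟧) := by
  rw [PowerSeries.algebraMap_apply']
  simp

theorem alg_coe (a : Polynomial L) : IsAlgebraic (Polynomial L) (a : L⟦X⟧) := by
  rw [← algebraMap_eq]
  exact isAlgebraic_algebraMap a

theorem ore0 (q : ℕ) {f : L⟦X⟧} (hf : IsAlgebraic (Polynomial L) f) :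
    ∃ (n : ℕ) (a : ℕ → Polynomial L), (∃ i < n, a i ≠ 0) ∧
      ∑ i ∈ Finset.range n, (a i : L⟦X⟧) * f ^ q ^ i = 0 := by
  obtain ⟨r, hr, hint⟩ := hf.exists_integral_multiple
  let B := Algebra.adjoin (Polynomial L) {r • f}
  haveI : Module.Finite (Polynomial L) B :=
    ⟨(Submodule.fg_top _).2 hint.fg_adjoin_singleton⟩
  let v : ℕ → B := fun i => ⟨(r • f) ^ q ^ i, B.pow_mem (Algebra.self_mem_adjoin_singleton _ _) _⟩
  have hv : ¬ LinearIndependent (Polynomial L) v := by
    intro hli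
    have := hli.finite_of_isNoetherian
    exact not_finite ℕ
  rw [not_linearIndependent_iff] at hv
  obtain ⟨s, g, hsum, i, hi, hgi⟩ := hv
  classical
  refine ⟨s.sup id + 1, fun j => if j ∈ s then g j * r ^ q ^ j else 0,
    ⟨i, Nat.lt_succ_of_le (Finset.le_sup (f := id) hi), ?_⟩, ?_⟩
  · simp only [hi, if_true]
    exact mul_ne_zero hgi (pow_ne_zero _ hr)
  · have h1 := congrArg Subtype.val hsum
    simp only [AddSubmonoidClass.coe_finsetSum, SetLike.val_smul, ZeroMemClass.coe_zero, v] at h1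
    rw [← h1]
    symm
    apply Finset.sum_subset_zero_on_sdiff
    · intro j hj
      exact Finset.mem_range.2 (Nat.lt_succ_of_le (Finset.le_sup (f := id) hj))
    · intro j hj
      simp [(Finset.mem_sdiff.1 hj).2]
    · intro j hj
      simp only [hj, if_true, Algebra.smul_def, algebraMap_eq, mul_pow]
      push_cast
      ring

theorem ore1 (h : Setup q τ) (f : L⟦X⟧) : ∀ (n : ℕ) (a : ℕ → Polynomial L), (∃ i < n, a i ≠ 0) →
    ∑ i ∈ Finset.range n, (a i : L⟦X⟧) * f ^ q ^ i = 0 →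
    ∃ (n : ℕ) (a : ℕ → Polynomial L), a 0 ≠ 0 ∧
      ∑ i ∈ Finset.range (n + 1), (a i : L⟦X⟧) * f ^ q ^ i = 0 := by
  have hq := h.two_le
  intro n
  induction n with
  | zero => rintro a ⟨i, hi, -⟩; omega
  | succ n ih =>
    rintro a ⟨i, hi, hai⟩ hsum
    by_cases h0 : a 0 = 0
    swap
    · exact ⟨n, a, h0, hsum⟩
    obtain ⟨i, rfl⟩ : ∃ j, i = j + 1 := ⟨i - 1, by
      rcases Nat.eq_zero_or_pos i with rfl | hi'
      · exact absurd h0 hai
      · omega⟩
    obtain ⟨m, hm⟩ : ∃ m, (a (i + 1)).coeff m ≠ 0 := by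
      by_contra hc
      push Not at hc
      exact hai (Polynomial.ext hc)
    let s := (q - 1) * (m + 1)
    have hP : ∀ j, ∃ b : Polynomial L, (b : L⟦X⟧) = Car q τ (X ^ s * (a (j + 1) : L⟦X⟧)) := by
      intro j
      apply Pol.exists (N := s + (a (j + 1)).natDegree)
      apply Pol.car h
      refine Pol.mono (Pol.mul (N := s) ?_ (Pol.coe _ le_rfl)) (by omega)
      intro l hl
      rw [coeff_X_pow, if_neg (by omega)]
    choose b hb using hP
    apply ih b
    · refine ⟨i, by omega, fun hb0 => hm ?_⟩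
      have h1 := congrArg (coeff m) (hb i)
      rw [hb0, coeff_Car] at h1
      have h2 : q * m + (q - 1) = m + s := by
        obtain ⟨q', rfl⟩ : ∃ q', q = q' + 1 := ⟨q - 1, by omega⟩
        simp only [s, Nat.add_sub_cancel]
        ring
      rw [h2, coeff_X_pow_mul, Polynomial.coeff_coe] at h1
      simpa using h1.symm
    · rw [Finset.sum_range_succ', h0] at hsum
      have h1 := congrArg (fun g => Car q τ (X ^ s * g)) hsum
      simp only [Polynomial.coe_zero, zero_mul, add_zero, mul_zero, map_zero, Finset.mul_sum,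
        map_sum] at h1
      rw [← h1]
      apply Finset.sum_congr rfl
      intro j _
      rw [hb, pow_succ q j, pow_mul f, ← mul_assoc, Car_mul_pow h]

theorem ore (h : Setup q τ) {f : L⟦X⟧} (hf : IsAlgebraic (Polynomial L) f) :
    ∃ (n : ℕ) (a : ℕ → Polynomial L), a 0 ≠ 0 ∧
      ∑ i ∈ Finset.range (n + 1), (a i : L⟦X⟧) * f ^ q ^ i = 0 := by
  obtain ⟨n, a, h1, h2⟩ := ore0 q hf
  exact ore1 h f n a h1 h2

theorem deriv_pow_q (h : Setup q τ) (f : L⟦X⟧) (i : ℕ) : d⁄dX L (f ^ q ^ (i + 1)) = 0 := by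
  rw [derivative_pow]
  have : ((q ^ (i + 1) : ℕ) : L⟦X⟧) = 0 := by
    rw [← map_natCast (C : L →+* L⟦X⟧), Nat.cast_pow, h.cast_q, zero_pow (by omega), map_zero]
  rw [this, zero_mul, zero_mul]

theorem alg_sum {ι : Type} (s : Finset ι) (f : ι → L⟦X⟧)
    (h : ∀ i ∈ s, IsAlgebraic (Polynomial L) (f i)) :
    IsAlgebraic (Polynomial L) (∑ i ∈ s, f i) :=
  Finset.sum_induction f _ (fun _ _ ha hb => ha.add hb) isAlgebraic_zero h

theorem alg_prod {ι : Type} (s : Finset ι) (f : ι → L⟦X⟧)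
    (h : ∀ i ∈ s, IsAlgebraic (Polynomial L) (f i)) :
    IsAlgebraic (Polynomial L) (∏ i ∈ s, f i) :=
  Finset.prod_induction f _ (fun _ _ ha hb => ha.mul hb) isAlgebraic_one h

theorem alg_deriv (h : Setup q τ) {f : L⟦X⟧} (hf : IsAlgebraic (Polynomial L) f) :
    IsAlgebraic (Polynomial L) (d⁄dX L f) := by
  obtain ⟨n, a, h0, hsum⟩ := ore h hf
  have h1 := congrArg (d⁄dX L) hsum
  rw [map_sum, map_zero, Finset.sum_range_succ'] at h1
  simp only [Derivation.leibniz, deriv_pow_q h, mul_zero, zero_add, derivative_coe, smul_eq_mul,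
    pow_zero, pow_one] at h1
  have h2 : (a 0 : L⟦X⟧) * d⁄dX L f =
      -(∑ i ∈ Finset.range n, f ^ q ^ (i + 1) * (Polynomial.derivative (a (i + 1)) : Polynomial L))
        - f * (Polynomial.derivative (a 0) : Polynomial L) := by
    linear_combination h1
  refine IsAlgebraic.of_mul (y := (a 0 : L⟦X⟧)) (mem_nonZeroDivisors_of_ne_zero ?_) (alg_coe _) ?_
  · simpa using h0
  · rw [h2]
    exact (alg_sum _ _ fun i _ => (hf.pow _).mul (alg_coe _)).neg.sub (hf.mul (alg_coe _))

theorem orbit_finite [Finite L] (h : Setup q τ) {f : L⟦X⟧} (hf : IsAlgebraic (Polynomial L) f) :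
    ∃ H : Set L⟦X⟧, H.Finite ∧ f ∈ H ∧ ∀ x ∈ H, Car q τ x ∈ H := by
  classical
  have hq := h.two_le
  obtain ⟨n, a, h0, hsum⟩ := ore h hf
  set A : L⟦X⟧ := (a 0 : L⟦X⟧) with hA
  have hA0 : A ≠ 0 := by simpa [hA] using h0
  let G : ℕ → L⟦X⟧ := fun i => A ^ (q ^ n - q ^ i) * f ^ q ^ i
  let b : ℕ → Polynomial L := fun i => -a (i + 1) * a 0 ^ (q ^ (i + 1) - 2)
  let N := (Finset.range n).sup (fun i => (b i).natDegree) + (a 0).natDegree
  have hG : ∀ i < n, A ^ (q ^ (n + 1) - q ^ n) * G (i + 1) = G i ^ q := by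
    intro i hi
    have h1 : q ^ (i + 1) ≤ q ^ n := Nat.pow_le_pow_right (by omega) hi
    have h2 : q ^ n ≤ q ^ (n + 1) := Nat.pow_le_pow_right (by omega) (by omega)
    simp only [G]
    rw [mul_pow, ← pow_mul, ← pow_mul, ← mul_assoc, ← pow_add, Nat.sub_mul, ← pow_succ, ← pow_succ]
    congr 2
    omega
  have hG0 : A ^ (q ^ (n + 1) - q ^ n) * G 0 = ∑ i ∈ Finset.range n, (b i : L⟦X⟧) * G i ^ q := by
    have h1 : 1 ≤ q ^ n := Nat.one_le_pow _ _ (by omega)
    have h2 : 2 * q ^ n ≤ q ^ (n + 1) := by rw [pow_succ]; nlinarith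
    rw [Finset.sum_range_succ'] at hsum
    simp only [pow_zero, pow_one] at hsum
    have h3 : A * f = -∑ i ∈ Finset.range n, (a (i + 1) : L⟦X⟧) * f ^ q ^ (i + 1) := by
      linear_combination hsum
    have h4 : A ^ (q ^ (n + 1) - q ^ n) * G 0 = A ^ (q ^ (n + 1) - 2) * (A * f) := by
      simp only [G, pow_zero, pow_one]
      rw [← mul_assoc, ← mul_assoc, ← pow_add, ← pow_succ]
      congr 2
      omega
    rw [h4, h3, ← Finset.sum_neg_distrib, Finset.mul_sum]
    apply Finset.sum_congr rfl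
    intro i hi
    have hi' := Finset.mem_range.1 hi
    have h5 : q ^ (i + 1) ≤ q ^ (n + 1) := Nat.pow_le_pow_right (by omega) (by omega)
    have h6 : 2 ≤ q ^ (i + 1) := by
      have : 1 ≤ q ^ i := Nat.one_le_pow _ _ (by omega)
      rw [pow_succ]; nlinarith
    simp only [G, b]
    push_cast
    rw [mul_pow, ← pow_mul, ← pow_mul, Nat.sub_mul, ← pow_succ, ← pow_succ, ← hA]
    have h7 : q ^ (n + 1) - 2 = (q ^ (i + 1) - 2) + (q ^ (n + 1) - q ^ (i + 1)) := by omega
    rw [h7, pow_add]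
    ring
  refine ⟨{x | ∃ c : ℕ → L⟦X⟧, (∀ i, Pol N (c i)) ∧
    A ^ q ^ n * x = ∑ i ∈ Finset.range (n + 1), c i * G i}, ?_, ?_, ?_⟩
  · apply Set.Finite.of_finite_image (f := fun x => A ^ q ^ n * x)
    · haveI : Finite {f : L⟦X⟧ | Pol N f} := Pol.finite N
      apply (Set.finite_range fun c : Fin (n + 1) → {f : L⟦X⟧ | Pol N f} =>
        ∑ i : Fin (n + 1), (c i : L⟦X⟧) * G i).subset
      rintro _ ⟨x, ⟨c, hc, hx⟩, rfl⟩
      refine ⟨fun i => ⟨c i, hc i⟩, ?_⟩
      simp only [hx]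
      rw [Finset.sum_range fun i => c i * G i]
    · intro x _ y _ hxy
      exact mul_left_cancel₀ (pow_ne_zero _ hA0) hxy
  · refine ⟨fun i => if i = 0 then A else 0, fun i => ?_, ?_⟩
    · by_cases hi : i = 0
      · simp only [hi, if_true]
        exact Pol.coe _ (by omega)
      · simp only [hi, if_false]
        exact Pol.zero N
    · rw [Finset.sum_range_succ']
      simp only [G, pow_zero, pow_one]
      have h1 : 1 ≤ q ^ n := Nat.one_le_pow _ _ (by omega)
      simp only [Nat.add_eq_zero_iff, one_ne_zero, and_false, if_false, zero_mul,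
        Finset.sum_const_zero, zero_add, if_true]
      rw [← mul_assoc, ← pow_succ']
      congr 2
      omega
  · rintro x ⟨c, hc, hx⟩
    refine ⟨fun i => if i < n then Car q τ (c (i + 1) + c 0 * b i) else 0, fun i => ?_, ?_⟩
    · by_cases hi : i < n
      · simp only [hi, if_true]
        apply Pol.car h
        refine ((hc _).mono (by omega)).add ((hc 0).mul (Pol.coe _ ?_))
        exact le_trans (Finset.le_sup (f := fun i => (b i).natDegree) (Finset.mem_range.2 hi))
          (by omega)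
      · simp only [hi, if_false]
        exact Pol.zero N
    · have h2 : q ^ n ≤ q ^ (n + 1) := Nat.pow_le_pow_right (by omega) (by omega)
      have h1 : x * (A ^ q ^ n) ^ q =
          ∑ i ∈ Finset.range n, (c (i + 1) + c 0 * b i) * G i ^ q := by
        have h3 : x * (A ^ q ^ n) ^ q = A ^ (q ^ (n + 1) - q ^ n) * (A ^ q ^ n * x) := by
          rw [← mul_assoc, ← pow_add, ← pow_mul, ← pow_succ, mul_comm]
          congr 2
          omega
        rw [h3, hx, Finset.sum_range_succ', mul_add, mul_left_comm, hG0, Finset.mul_sum,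
          Finset.mul_sum, ← Finset.sum_add_distrib]
        apply Finset.sum_congr rfl
        intro i hi
        rw [mul_left_comm, hG i (Finset.mem_range.1 hi)]
        ring
      rw [mul_comm, ← Car_mul_pow h, h1, map_sum, Finset.sum_range_succ]
      simp only [lt_irrefl, if_false, zero_mul, add_zero]
      apply Finset.sum_congr rfl
      intro i hi
      rw [if_pos (Finset.mem_range.1 hi), Car_mul_pow h]

theorem orbit_periodic [Finite L] (h : Setup q τ) {f : L⟦X⟧}
    (hf : IsAlgebraic (Polynomial L) f) :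
    ∃ k₀ P : ℕ, 0 < P ∧ ∀ k, k₀ ≤ k → ∀ m, (Car q τ)^[k + m * P] f = (Car q τ)^[k] f := by
  obtain ⟨H, hH, hfH, hst⟩ := orbit_finite h hf
  have hmem : ∀ k, (Car q τ)^[k] f ∈ H := by
    intro k
    induction k with
    | zero => exact hfH
    | succ k ih => rw [Function.iterate_succ_apply']; exact hst _ ih
  obtain ⟨i, j, hij, he⟩ := Set.Finite.exists_lt_map_eq_of_forall_mem hmem hH
  obtain ⟨P, rfl⟩ := Nat.exists_eq_add_of_lt hij
  refine ⟨i, P + 1, by omega, fun k hk m => ?_⟩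
  obtain ⟨l, rfl⟩ := Nat.exists_eq_add_of_le hk
  induction m with
  | zero => simp
  | succ m ih =>
    rw [← ih]
    have e1 : i + l + (m + 1) * (P + 1) = (l + m * (P + 1)) + (i + P + 1) := by ring
    have e2 : i + l + m * (P + 1) = (l + m * (P + 1)) + i := by ring
    rw [e1, e2, Function.iterate_add_apply, Function.iterate_add_apply _ _ i, he]

end Pool.Agent.H629Z.Yao
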