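import Pool.Agent.H629Z.Yao.Car

set_option autoImplicit false

/-! The Cartier orbit of `X / [j]` and the coefficient argument. -/

namespace Pool.Agent.H629Z.Yao

open PowerSeries Filter

variable {L : Type} [Field L] {q : ℕ} {τ : L →+* L}

/-- the image of the variable `t` -/
noncomputable def tt (θ : L) : L⟦X⟧ := C θ + X

/-- the image of `[j] = t ^ q ^ j - t` -/
noncomputable def br (q : ℕ) (θ : L) (j : ℕ) : L⟦X⟧ := tt θ ^ q ^ j - tt θ

/-- the limit form of `[j]` -/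
noncomputable def uu (q : ℕ) (θ : L) (j : ℕ) : L⟦X⟧ := C (θ ^ q ^ j - θ) - X

theorem tt_pow (h : Setup q τ) (θ : L) (e : ℕ) : tt θ ^ q ^ e = C (θ ^ q ^ e) + X ^ q ^ e := by
  rw [tt, h.add_pow, map_pow]

theorem br_eq (h : Setup q τ) (θ : L) (j : ℕ) : br q θ j = uu q θ j + X ^ q ^ j := by
  rw [br, tt_pow h, tt, uu, map_sub]
  ring

theorem lt_q_pow (h : Setup q τ) (e : ℕ) : e < q ^ e := Nat.lt_pow_self (by have := h.two_le; omega)

theorem exists_R (h : Setup q τ) (θ : L) (j : ℕ) (hj : 0 < j) : ∃ R : L⟦X⟧, R * br q θ j = X := by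
  have h2 : j < q ^ j := lt_q_pow h j
  by_cases hc : θ ^ q ^ j - θ = 0
  · obtain ⟨m, hm⟩ : ∃ m, q ^ j = m + 2 := ⟨q ^ j - 2, by omega⟩
    have hu : IsUnit (X ^ (m + 1) - 1 : L⟦X⟧) := by
      rw [isUnit_iff_constantCoeff]
      simp
    obtain ⟨w, hw⟩ := hu.exists_left_inv
    refine ⟨w, ?_⟩
    rw [br_eq h, uu, hc, hm, map_zero]
    linear_combination X * hw
  · have hu : IsUnit (br q θ j) := by
      rw [isUnit_iff_constantCoeff, br_eq h, uu]
      simp only [map_add, map_sub, constantCoeff_C, constantCoeff_X, map_pow,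
        zero_pow (by omega : q ^ j ≠ 0), sub_zero, add_zero]
      exact isUnit_iff_ne_zero.2 hc
    obtain ⟨w, hw⟩ := hu.exists_left_inv
    exact ⟨X * w, by rw [mul_assoc, hw, mul_one]⟩

theorem dvd_of_mul_br (h : Setup q τ) (θ : L) {j : ℕ} (hj : 0 < j) {m : ℕ} {f : L⟦X⟧}
    (hf : X ^ (m + 1) ∣ f * br q θ j) : X ^ m ∣ f := by
  obtain ⟨R, hR⟩ := exists_R h θ j hj
  have h1 : X ^ m * X ∣ f * X := by
    have h2 : f * X = f * br q θ j * R := by rw [← hR]; ring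
    rw [← pow_succ, h2]
    exact hf.mul_right R
  exact (mul_dvd_mul_iff_right X_ne_zero).1 h1

theorem br_ne_zero (h : Setup q τ) (θ : L) {j : ℕ} (hj : 0 < j) : br q θ j ≠ 0 := by
  obtain ⟨R, hR⟩ := exists_R h θ j hj
  intro h0
  rw [h0, mul_zero] at hR
  exact X_ne_zero hR.symm

theorem car_step (h : Setup q τ) (θ : L) {j : ℕ} (hj : 0 < j) {Z P : L⟦X⟧}
    (hZ : Z * br q θ j = P ^ q) : Car q τ Z * br q θ j = P := by
  have hq := h.two_le
  obtain ⟨i, rfl⟩ : ∃ i, j = i + 1 := ⟨j - 1, by omega⟩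
  let B : L⟦X⟧ := C (τ (θ ^ q ^ (i + 1) - θ)) + X ^ q ^ i
  have hB : br q θ (i + 1) = B ^ q - X := by
    have h1 := h.add_pow 1 (C (τ (θ ^ q ^ (i + 1) - θ))) (X ^ q ^ i)
    rw [pow_one] at h1
    rw [br_eq h, uu, h1, ← map_pow, h.root, ← pow_mul, ← pow_succ]
    ring
  let G : L⟦X⟧ := ∑ l ∈ Finset.range q, X ^ l * (B ^ q) ^ (q - 1 - l)
  have hG : G * br q θ (i + 1) = br q θ (i + 1) ^ q := by
    have h1 := geom_sum₂_mul (X : L⟦X⟧) (B ^ q) q
    have h2 := h.sub_pow 1 (B ^ q) X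
    rw [pow_one] at h2
    rw [hB, h2]
    linear_combination -h1
  have hG1 : Car q τ G = 1 := by
    simp only [G, map_sum]
    rw [Finset.sum_eq_single (q - 1)]
    · rw [Nat.sub_self, pow_zero, mul_one, Car_X_pow h _ (by omega), if_pos rfl]
    · intro l hl hne
      rw [← pow_mul, mul_comm q, pow_mul, Car_mul_pow h, Car_X_pow h _ (Finset.mem_range.1 hl),
        if_neg hne, zero_mul]
    · intro hn
      exact absurd (Finset.mem_range.2 (by omega)) hn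
  rw [← Car_mul_pow h, ← hG, mul_left_comm, hZ, Car_mul_pow h, hG1, one_mul]

theorem car_iter (h : Setup q τ) (θ : L) {j : ℕ} (hj : 0 < j) {R : L⟦X⟧}
    (hR : R * br q θ j = X) (k : ℕ) : ∃ e < j, ∃ γ : L, j ∣ e + k ∧ γ ^ q ^ k = θ ∧
      (Car q τ)^[k] R * br q θ j = tt θ ^ q ^ e - C γ := by
  induction k with
  | zero => exact ⟨0, hj, θ, by simp, by simp, by simp [hR, tt]⟩
  | succ k ih =>
    obtain ⟨e, he, γ, hd, hγ, hZ⟩ := ih
    have hγ' : τ γ ^ q ^ (k + 1) = θ := by rw [pow_succ', pow_mul, h.root, hγ]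
    have key : ∀ e' : ℕ, tt θ ^ q ^ (e' + 1) - C γ = (tt θ ^ q ^ e' - C (τ γ)) ^ q := by
      intro e'
      have h2 := h.sub_pow 1 (tt θ ^ q ^ e') (C (τ γ))
      rw [pow_one] at h2
      rw [h2, ← pow_mul, ← pow_succ, ← map_pow, h.root]
    rw [Function.iterate_succ_apply']
    rcases e with _ | e
    · obtain ⟨i, rfl⟩ : ∃ i, j = i + 1 := ⟨j - 1, by omega⟩
      refine ⟨i, by omega, τ γ, ?_, hγ', ?_⟩
      · rw [zero_add] at hd
        have : i + (k + 1) = (i + 1) + k := by ring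
        rw [this]
        exact (dvd_refl _).add hd
      · have h3 : ((Car q τ)^[k] R + 1) * br q θ (i + 1) = (tt θ ^ q ^ i - C (τ γ)) ^ q := by
          rw [← key, add_mul, hZ, br]
          ring
        have h4 := car_step h θ hj h3
        rwa [map_add, Car_one h, add_zero] at h4
    · refine ⟨e, by omega, τ γ, ?_, hγ', car_step h θ hj (by rw [hZ, key])⟩
      have : e + (k + 1) = e + 1 + k := by ring
      rwa [this]

theorem pow_fix {d : ℕ} (hθ : ∀ x : L, x ^ q ^ d = x) {P : ℕ} (hP : d ∣ P) (x : L) :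
    x ^ q ^ P = x := by
  obtain ⟨m, rfl⟩ := hP
  induction m with
  | zero => simp
  | succ m ih => rw [mul_add, mul_one, pow_add, pow_mul, ih, hθ]

/-- the difference of two iterates of the Cartier operator -/
noncomputable def Df (q : ℕ) (τ : L →+* L) (k P : ℕ) : L⟦X⟧ →+ L⟦X⟧ :=
  AddMonoidHom.mk' (fun g => (Car q τ)^[k] g - (Car q τ)^[k + P] g) (by
    intro a b
    rw [iterate_map_add, iterate_map_add]
    ring)

theorem Df_br (h : Setup q τ) {d : ℕ} (hθ : ∀ x : L, x ^ q ^ d = x) (θ : L) {j : ℕ} (hj : 0 < j)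
    {R : L⟦X⟧} (hR : R * br q θ j = X) (k : ℕ) {P : ℕ} (hP : d ∣ P) :
    ∃ e₁ < j, ∃ e₂ < j, j ∣ e₁ + k ∧ j ∣ e₂ + (k + P) ∧
      Df q τ k P R * br q θ j = tt θ ^ q ^ e₁ - tt θ ^ q ^ e₂ := by
  obtain ⟨e₁, he₁, γ₁, hd₁, hγ₁, hZ₁⟩ := car_iter h θ hj hR k
  obtain ⟨e₂, he₂, γ₂, hd₂, hγ₂, hZ₂⟩ := car_iter h θ hj hR (k + P)
  refine ⟨e₁, he₁, e₂, he₂, hd₁, hd₂, ?_⟩
  have hγ : γ₁ = γ₂ := by
    apply h.pow_inj k
    rw [pow_add, pow_mul, pow_fix hθ hP] at hγ₂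
    rw [hγ₁, hγ₂]
  show ((Car q τ)^[k] R - (Car q τ)^[k + P] R) * _ = _
  rw [sub_mul, hZ₁, hZ₂, hγ]
  ring

theorem car_dvd (h : Setup q τ) {N : ℕ} {g : L⟦X⟧} (hg : X ^ (q * N) ∣ g) :
    X ^ N ∣ Car q τ g := by
  have hq := h.two_le
  rw [X_pow_dvd_iff] at hg ⊢
  intro m hm
  have : q * (m + 1) ≤ q * N := Nat.mul_le_mul_left q hm
  rw [mul_add] at this
  rw [coeff_Car, hg _ (by omega), map_zero]

theorem iter_dvd (h : Setup q τ) (k : ℕ) : ∀ {N : ℕ} {g : L⟦X⟧}, X ^ (q ^ k * N) ∣ g →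
    X ^ N ∣ (Car q τ)^[k] g := by
  induction k with
  | zero => intro N g hg; simpa using hg
  | succ k ih =>
    intro N g hg
    rw [Function.iterate_succ_apply]
    apply ih
    apply car_dvd h
    rwa [← mul_assoc, ← pow_succ']

theorem Df_dvd (h : Setup q τ) (k P N : ℕ) {g : L⟦X⟧} (hg : X ^ (q ^ (k + P) * N) ∣ g) :
    X ^ N ∣ Df q τ k P g := by
  have hq := h.two_le
  refine dvd_sub (iter_dvd h k (dvd_trans (pow_dvd_pow _ ?_) hg)) (iter_dvd h _ hg)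
  exact Nat.mul_le_mul_right N (Nat.pow_le_pow_right (by omega) (by omega))

theorem eq_of_dvd_lt {j a : ℕ} (h : j ∣ a) (h0 : 0 < a) (h2 : a < 2 * j) : a = j := by
  obtain ⟨m, rfl⟩ := h
  have h3 : m < 2 := by
    by_contra hc
    have : j * 2 ≤ j * m := Nat.mul_le_mul_left j (by omega)
    omega
  interval_cases m
  · omega
  · omega

theorem tail_dvd (h : Setup q τ) {d : ℕ} (hθ : ∀ x : L, x ^ q ^ d = x) (θ : L) {j : ℕ}
    {R : L⟦X⟧} (hR : R * br q θ j = X) {k : ℕ} (hk : 0 < k) {P : ℕ} (hP : d ∣ P) (N : ℕ)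
    (hj : k + P + N < j) : X ^ N ∣ Df q τ k P R := by
  obtain ⟨e₁, he₁, e₂, he₂, hd₁, hd₂, hZ⟩ := Df_br h hθ θ (by omega) hR k hP
  have h1 := eq_of_dvd_lt hd₁ (by omega) (by omega)
  have h2 := eq_of_dvd_lt hd₂ (by omega) (by omega)
  have h3 : e₁ = e₂ + P := by omega
  apply dvd_of_mul_br h θ (j := j) (by omega)
  rw [hZ, tt_pow h, tt_pow h, h3, pow_add q, pow_mul θ, pow_fix hθ hP, add_sub_add_left_eq_sub,
    pow_mul]
  have h4 : X ^ (N + 1) ∣ (X : L⟦X⟧) ^ q ^ e₂ := pow_dvd_pow _ (by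
    have := lt_q_pow h e₂
    omega)
  exact dvd_sub (h4.trans (dvd_pow_self _ (pow_ne_zero _ (by have := h.two_le; omega)))) h4

theorem coeff_W {d : ℕ} (hd : 0 < d) {W : L⟦X⟧} (hW : Pol (d - 1) W) (M n : ℕ)
    (hn : n < M ∨ M + d ≤ n) : coeff n (W * X ^ M) = 0 := by
  rw [coeff_mul_X_pow']
  split_ifs with h1
  · exact hW _ (by omega)
  · rfl

theorem coeff_WD (h : Setup q τ) (θ : L) {d : ℕ} (hd : 0 < d) {W : L⟦X⟧} (hW : Pol (d - 1) W)
    (e₁ e₂ n : ℕ) (hn : d ≤ n) :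
    coeff n (W * (tt θ ^ q ^ e₁ - tt θ ^ q ^ e₂)) =
      coeff n (W * X ^ q ^ e₁) - coeff n (W * X ^ q ^ e₂) := by
  have h1 : W * (tt θ ^ q ^ e₁ - tt θ ^ q ^ e₂) =
      C (θ ^ q ^ e₁ - θ ^ q ^ e₂) * W + (W * X ^ q ^ e₁ - W * X ^ q ^ e₂) := by
    rw [tt_pow h, tt_pow h, map_sub]
    ring
  rw [h1, map_add, coeff_C_mul, hW n (by omega), mul_zero, zero_add, map_sub]

theorem core [Finite L] (h : Setup q τ) {d : ℕ} (hd : 0 < d) (hθ : ∀ x : L, x ^ q ^ d = x) (θ : L)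
    (V : L⟦X⟧) (hV : ∀ j, ∃ W, Pol (d - 1) W ∧ coeff (d - 1) W ≠ 0 ∧ V = uu q θ j * W)
    (R : ℕ → L⟦X⟧) (hR : ∀ j, 0 < j → R j * br q θ j = X)
    (c : ℕ → ℕ) (hc : ∀ j ≤ d, c j = 0) (f : L⟦X⟧) (hf : IsAlgebraic (Polynomial L) f)
    (hlim : ∀ N, ∀ᶠ J in atTop,
      X ^ N ∣ f - ∑ j ∈ Finset.range J, (c j : L⟦X⟧) * (R (j - d) - R j)) :
    ∀ᶠ j in atTop, (c (j + d) : L) = c j := by
  classical
  have hq := h.two_le
  obtain ⟨k₀, P₀, hP₀, hper⟩ := orbit_periodic h hf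
  set P := (d + 2).factorial * P₀ with hPdef
  have hPpos : 0 < P := Nat.mul_pos (Nat.factorial_pos _) hP₀
  have hsmall : ∀ j, 0 < j → j ≤ d + 2 → j ∣ P := fun j h1 h2 =>
    (Nat.dvd_factorial h1 h2).mul_right _
  have hdP : d ∣ P := hsmall d hd (by omega)
  by_contra hcon
  have hex : ∃ j, (c (j + d) : L) ≠ c j ∧ ¬ j ∣ P := by
    rw [Filter.not_eventually, frequently_atTop] at hcon
    obtain ⟨j, hj, hne⟩ := hcon (P + 1)
    exact ⟨j, hne, fun hdv => absurd (Nat.le_of_dvd hPpos hdv) (by omega)⟩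
  let j₀ := Nat.find hex
  have hj₀ : (c (j₀ + d) : L) ≠ c j₀ ∧ ¬ j₀ ∣ P := Nat.find_spec hex
  have hmin : ∀ j < j₀, (c (j + d) : L) = c j ∨ j ∣ P := by
    intro j hj
    have := Nat.find_min hex hj
    tauto
  have hj0pos : 0 < j₀ := by
    rcases Nat.eq_zero_or_pos j₀ with h0 | h0
    · exfalso
      apply hj₀.1
      rw [h0, hc _ (by omega), hc _ (by omega)]
    · exact h0
  have hbig : d + 2 < j₀ := by
    by_contra hc'
    exact hj₀.2 (hsmall _ hj0pos (by omega))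
  set k := k₀ * j₀ + 1 with hk
  have hkk : k₀ ≤ k := by
    have : k₀ * 1 ≤ k₀ * j₀ := Nat.mul_le_mul_left _ hj0pos
    omega
  have hDf : Df q τ k P f = 0 := by
    show (Car q τ)^[k] f - (Car q τ)^[k + P] f = 0
    rw [hPdef, hper k hkk, sub_self]
  set Δ : ℕ → L⟦X⟧ := fun j => Df q τ k P (R j) with hΔ
  set a : ℕ → L := fun j => (c (j + d) : L) - c j with ha
  have hsum : ∀ N, ∀ᶠ J in atTop, X ^ N ∣ ∑ j ∈ Finset.range J, C (a j) * Δ j := by
    intro N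
    obtain ⟨J₀, hJ₀⟩ := eventually_atTop.1 (hlim (q ^ (k + P) * N))
    filter_upwards [eventually_ge_atTop (J₀ + (k + P + N + 1))] with J hJ
    have h1 := Df_dvd h k P N (hJ₀ (J + d) (by omega))
    rw [map_sub, hDf, zero_sub, dvd_neg, map_sum] at h1
    have h2 : ∀ j, Df q τ k P ((c j : L⟦X⟧) * (R (j - d) - R j)) =
        (c j : L⟦X⟧) * Δ (j - d) - (c j : L⟦X⟧) * Δ j := by
      intro j
      rw [← nsmul_eq_mul, map_nsmul, map_sub, nsmul_eq_mul, mul_sub]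
    simp only [h2, Finset.sum_sub_distrib] at h1
    have h3 : ∑ j ∈ Finset.range (J + d), (c j : L⟦X⟧) * Δ (j - d) =
        ∑ j ∈ Finset.range J, (c (j + d) : L⟦X⟧) * Δ j := by
      rw [add_comm J d, Finset.sum_range_add, Finset.sum_eq_zero, zero_add]
      · apply Finset.sum_congr rfl
        intro j _
        rw [Nat.add_sub_cancel_left, add_comm d j]
      · intro j hj
        rw [hc j (Finset.mem_range.1 hj).le, Nat.cast_zero, zero_mul]
    rw [h3, Finset.sum_range_add] at h1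
    have h4 : X ^ N ∣ ∑ i ∈ Finset.range d, (c (J + i) : L⟦X⟧) * Δ (J + i) := by
      apply Finset.dvd_sum
      intro i _
      exact (tail_dvd h hθ θ (hR _ (by omega)) (by omega) hdP N (by omega)).mul_left _
    have h5 := dvd_add h1 h4
    have h6 : ∑ j ∈ Finset.range J, C (a j) * Δ j =
        ∑ j ∈ Finset.range J, (c (j + d) : L⟦X⟧) * Δ j -
          ∑ j ∈ Finset.range J, (c j : L⟦X⟧) * Δ j := by
      rw [← Finset.sum_sub_distrib]
      apply Finset.sum_congr rfl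
      intro j _
      simp only [ha, map_sub, map_natCast]
      ring
    rw [h6]
    convert h5 using 1
    ring
  set Q := q ^ j₀ with hQ
  set Q' := q ^ (j₀ - 1) with hQ'
  have hQQ : 2 * Q' ≤ Q := by
    have : Q = q * Q' := by rw [hQ, hQ', ← pow_succ']; congr 1; omega
    rw [this]
    exact Nat.mul_le_mul_right _ hq
  have hQ'big : d + 2 < Q' := by
    have h1 := lt_q_pow h (j₀ - 1)
    omega
  obtain ⟨J, hJ, hJ'⟩ := ((hsum (2 * Q)).and (eventually_gt_atTop j₀)).exists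
  have hF : ∀ n < 2 * Q, coeff n (∑ j ∈ Finset.range J, C (a j) * (V * Δ j)) = 0 := by
    have h1 : X ^ (2 * Q) ∣ ∑ j ∈ Finset.range J, C (a j) * (V * Δ j) := by
      have := hJ.mul_left V
      rw [Finset.mul_sum] at this
      simpa only [mul_left_comm] using this
    exact X_pow_dvd_iff.1 h1
  -- the general shape of the terms
  have hshape : ∀ j, 0 < j → ∃ e₁ < j, ∃ e₂ < j, ∃ W, j ∣ e₁ + k ∧ j ∣ e₂ + (k + P) ∧
      Pol (d - 1) W ∧ coeff (d - 1) W ≠ 0 ∧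
      Δ j * br q θ j = tt θ ^ q ^ e₁ - tt θ ^ q ^ e₂ ∧
      (V * Δ j - W * (tt θ ^ q ^ e₁ - tt θ ^ q ^ e₂)) * br q θ j =
        -(W * (tt θ ^ q ^ e₁ - tt θ ^ q ^ e₂) * X ^ q ^ j) := by
    intro j hj
    obtain ⟨e₁, he₁, e₂, he₂, hd₁, hd₂, hZ⟩ := Df_br h hθ θ hj (hR j hj) k hdP
    obtain ⟨W, hW1, hW2, hW3⟩ := hV j
    refine ⟨e₁, he₁, e₂, he₂, W, hd₁, hd₂, hW1, hW2, hZ, ?_⟩
    have hZ' : Δ j * br q θ j = tt θ ^ q ^ e₁ - tt θ ^ q ^ e₂ := hZ
    rw [sub_mul, mul_assoc V, hZ', hW3, br_eq h]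
    ring
  have hgap : ∀ (W : L⟦X⟧), Pol (d - 1) W → ∀ e₁ e₂ n, Q + d ≤ n → n < 2 * Q →
      coeff n (W * (tt θ ^ q ^ e₁ - tt θ ^ q ^ e₂)) = 0 := by
    intro W hW e₁ e₂ n h1 h2
    have h3 : ∀ e, n < q ^ e ∨ q ^ e + d ≤ n := by
      intro e
      rcases le_or_gt e j₀ with h4 | h4
      · have : q ^ e ≤ Q := Nat.pow_le_pow_right (by omega) h4
        omega
      · have h5 : q ^ (j₀ + 1) ≤ q ^ e := Nat.pow_le_pow_right (by omega) h4
        have h6 : 2 * Q ≤ q ^ (j₀ + 1) := by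
          rw [pow_succ']; exact Nat.mul_le_mul_right _ hq
        omega
    rw [coeff_WD h θ hd hW _ _ _ (by omega), coeff_W hd hW _ _ (h3 _), coeff_W hd hW _ _ (h3 _),
      sub_self]
  have hother : ∀ n, Q + d ≤ n → n + 1 < 2 * Q → coeff n (V * Δ j₀) = 0 := by
    intro n h1 h2
    have h3 := hF n (by omega)
    rw [map_sum, Finset.sum_eq_single j₀, coeff_C_mul] at h3
    · exact (mul_eq_zero.1 h3).resolve_left (sub_ne_zero.2 hj₀.1)
    · intro j _ hne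
      rw [coeff_C_mul]
      rcases Nat.eq_zero_or_pos j with rfl | hjpos
      · simp only [ha]
        rw [hc _ (by omega), hc _ (by omega), sub_self, zero_mul]
      obtain ⟨e₁, he₁, e₂, he₂, W, hd₁, hd₂, hW1, hW2, hZ, hE⟩ := hshape j hjpos
      rcases lt_or_gt_of_ne hne with hlt | hgt
      · rcases hmin j hlt with h4 | h4
        · simp only [ha]
          rw [h4, sub_self, zero_mul]
        · have h5 : j ∣ e₂ + k := by
            rw [← add_assoc] at hd₂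
            exact (Nat.dvd_add_left h4).1 hd₂
          have h6 : e₁ = e₂ := by
            have h7 : e₁ + k ≡ e₂ + k [MOD j] :=
              (Nat.modEq_zero_iff_dvd.2 hd₁).trans (Nat.modEq_zero_iff_dvd.2 h5).symm
            exact Nat.ModEq.eq_of_lt_of_lt (Nat.ModEq.add_right_cancel' k h7) he₁ he₂
          rw [h6, sub_self] at hZ
          rw [(mul_eq_zero.1 hZ).resolve_right (br_ne_zero h θ hjpos)]
          simp
      · have h5 : q ^ (j₀ + 1) ≤ q ^ j := Nat.pow_le_pow_right (by omega) hgt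
        have h6 : 2 * Q ≤ q ^ (j₀ + 1) := by
          rw [pow_succ']; exact Nat.mul_le_mul_right _ hq
        have h7 : X ^ (q ^ j - 1) ∣ V * Δ j - W * (tt θ ^ q ^ e₁ - tt θ ^ q ^ e₂) := by
          apply dvd_of_mul_br h θ hjpos
          rw [hE, Nat.sub_add_cancel (by omega), dvd_neg]
          exact Dvd.intro_left _ rfl
        have h8 := X_pow_dvd_iff.1 h7 n (by omega)
        rw [map_sub, hgap W hW1 _ _ n h1 (by omega), sub_zero] at h8
        rw [h8, mul_zero]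
    · intro hn
      exact absurd (Finset.mem_range.2 hJ') hn
  obtain ⟨e₁, he₁, e₂, he₂, W, hd₁, hd₂, hW1, hW2, hZ, hE⟩ := hshape j₀ hj0pos
  have he1 : e₁ = j₀ - 1 := by
    have h1 : j₀ ∣ e₁ + 1 := by
      have : e₁ + k = k₀ * j₀ + (e₁ + 1) := by rw [hk]; ring
      rw [this] at hd₁
      exact (Nat.dvd_add_right (Dvd.intro_left _ rfl)).1 hd₁
    have := Nat.le_of_dvd (by omega) h1
    omega
  have he2 : e₂ < e₁ := by
    by_contra hc'
    have h1 : e₂ = e₁ := by omega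
    rw [h1, ← add_assoc] at hd₂
    exact hj₀.2 ((Nat.dvd_add_right hd₁).1 hd₂)
  set E := V * Δ j₀ - W * (tt θ ^ q ^ e₁ - tt θ ^ q ^ e₂) with hEdef
  have hE0 : ∀ n, Q + d ≤ n → n + 1 < 2 * Q → coeff n E = 0 := by
    intro n h1 h2
    rw [hEdef, map_sub, hother n h1 h2, hgap W hW1 _ _ n h1 (by omega), sub_self]
  have hE1 : X ^ (Q - 1) ∣ E := by
    apply dvd_of_mul_br h θ hj0pos
    rw [hE, Nat.sub_add_cancel (by omega), dvd_neg]
    exact Dvd.intro_left _ rfl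
  have h1 := congrArg (coeff (d - 1 + Q' + Q)) hE
  have h2 : d - 1 + Q' + Q = (d + Q' + Q - 2) + 1 := by omega
  rw [map_neg, coeff_mul_X_pow, coeff_WD h θ hd hW1 _ _ _ (by omega), he1, ← hQ',
    coeff_mul_X_pow, coeff_W hd hW1, br_eq h, uu, mul_add, mul_sub, map_add, map_sub,
    coeff_mul_X_pow, X_pow_dvd_iff.1 hE1 _ (by omega), coeff_mul_C, hE0 _ (by omega) (by omega),
    h2, coeff_succ_mul_X, hE0 _ (by omega) (by omega)] at h1
  · apply hW2
    simpa using h1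
  · right
    have : q ^ e₂ < Q' := Nat.pow_lt_pow_right (by omega) (by omega)
    omega

end Pool.Agent.H629Z.Yao
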