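import Mathlib

set_option autoImplicit false

namespace Pool.Agent.H629Z.Yao

open Polynomial

/-- `Dv v j` is the product of all monic polynomials of degree `j` not divisible by `v`. -/
noncomputable def Dv {F : Type} [Field F] (v : F[X]) (j : ℕ) : F[X] :=
  ∏ᶠ a ∈ {a : F[X] | a.Monic ∧ a.natDegree = j ∧ ¬ v ∣ a}, a

end Pool.Agent.H629Z.Yao
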