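import Pool.Agent.H629Z.Yao.Defs

set_option autoImplicit false

/-! Carlitz's identities for the products of monic polynomials. -/

namespace Pool.Agent.H629Z.Yao

open Polynomial Filter

variable {F : Type} [Field F] [Fintype F]

theorem low_finite (j : ℕ) : {a : F[X] | a.degree < j}.Finite := by
  have h1 : Finite (degreeLT F j) := Finite.of_equiv _ (degreeLTEquiv F j).symm.toEquiv
  have h2 : {a : F[X] | a.degree < j} = (degreeLT F j : Set F[X]) := by
    ext a
    simp [mem_degreeLT]
  rw [h2]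
  exact Set.toFinite _

variable (F) in
/-- polynomials of degree less than `j` -/
noncomputable def Low (j : ℕ) : Finset F[X] := (low_finite j).toFinset

theorem mem_Low {j : ℕ} {a : F[X]} : a ∈ Low F j ↔ a.degree < j := by simp [Low]

theorem card_Low (j : ℕ) : (Low F j).card = Fintype.card F ^ j := by
  have h1 : Nat.card (degreeLT F j) = Fintype.card F ^ j := by
    rw [Nat.card_congr (degreeLTEquiv F j).toEquiv]
    simp
  rw [← h1, ← Nat.card_eq_finsetCard]
  exact Nat.card_congr (Equiv.subtypeEquivRight fun a => by rw [mem_Low, mem_degreeLT])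

open Classical in
variable (F) in
/-- monic polynomials of degree `j` -/
noncomputable def Mon (j : ℕ) : Finset F[X] := (Low F j).image fun a => X ^ j + a

theorem mem_Mon {j : ℕ} {a : F[X]} : a ∈ Mon F j ↔ a.Monic ∧ a.natDegree = j := by
  simp only [Mon, Finset.mem_image, mem_Low]
  constructor
  · rintro ⟨b, hb, rfl⟩
    refine ⟨monic_X_pow_add hb, ?_⟩
    rw [natDegree_add_eq_left_of_degree_lt] <;> simp [hb]
  · rintro ⟨h1, rfl⟩
    refine ⟨a - X ^ a.natDegree, ?_, by ring⟩
    have := degree_sub_lt (p := a) (q := X ^ a.natDegree)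
      (by rw [degree_X_pow, degree_eq_natDegree h1.ne_zero]) h1.ne_zero (by simp [h1.leadingCoeff])
    rwa [degree_eq_natDegree h1.ne_zero] at this

theorem card_Mon (j : ℕ) : (Mon F j).card = Fintype.card F ^ j := by
  classical
  rw [← card_Low, Mon]
  convert Finset.card_image_of_injective _ (add_right_injective (X ^ j : F[X]))

/-- Carlitz's additive polynomial -/
noncomputable def ee (j : ℕ) (x : F[X]) : F[X] := ∏ a ∈ Low F j, (x + a)

variable (F) in
/-- the product of the monic polynomials of degree `j` -/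
noncomputable def MM (j : ℕ) : F[X] := ∏ a ∈ Mon F j, a

theorem MM_eq (j : ℕ) : MM F j = ee j (X ^ j) := by
  classical
  rw [MM, Mon, ee]
  convert Finset.prod_image (s := Low F j) (g := fun a : F[X] => X ^ j + a) (f := fun a => a)
    fun a _ b _ h => add_left_cancel h

theorem MM_ne_zero (j : ℕ) : MM F j ≠ 0 :=
  Finset.prod_ne_zero_iff.2 fun _ ha => (mem_Mon.1 ha).1.ne_zero

theorem ee_zero_deg (x : F[X]) : ee 0 x = x := by
  have : Low F 0 = {0} := by
    ext a
    simp [mem_Low]
  simp [ee, this]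

theorem ee_succ_prod (j : ℕ) (x : F[X]) : ee (j + 1) x = ∏ c : F, ee j (x + C c * X ^ j) := by
  simp only [ee]
  rw [← Finset.prod_product']
  symm
  apply Finset.prod_nbij' (fun y : F × F[X] => C y.1 * X ^ j + y.2)
    (fun b => (b.coeff j, b - C (b.coeff j) * X ^ j))
  · rintro ⟨c, a⟩ ha
    simp only [Finset.mem_product, Finset.mem_univ, true_and, mem_Low] at ha ⊢
    rw [degree_lt_iff_coeff_zero] at ha ⊢
    intro m hm
    rw [coeff_add, coeff_C_mul_X_pow, if_neg (by omega), ha m (by omega), add_zero]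
  · intro b hb
    simp only [Finset.mem_product, Finset.mem_univ, true_and, mem_Low] at hb ⊢
    rw [degree_lt_iff_coeff_zero] at hb ⊢
    intro m hm
    rw [coeff_sub, coeff_C_mul_X_pow]
    split_ifs with h
    · rw [h, sub_self]
    · rw [hb m (by omega), sub_zero]
  · rintro ⟨c, a⟩ ha
    simp only [Finset.mem_product, Finset.mem_univ, true_and, mem_Low] at ha
    rw [degree_lt_iff_coeff_zero] at ha
    have : (C c * X ^ j + a).coeff j = c := by
      rw [coeff_add, coeff_C_mul_X_pow, if_pos rfl, ha j le_rfl, add_zero]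
    simp only [this]
    simp
  · intro b _
    simp
  · rintro ⟨c, a⟩ _
    simp only [add_assoc]

theorem prod_X_add_C : ∏ c : F, (X + C c : F[X]) = X ^ Fintype.card F - X := by
  classical
  have h1 : (X ^ Fintype.card F - X : F[X]).Monic :=
    monic_X_pow_sub (by simpa using Fintype.one_lt_card)
  have h2 := prod_multiset_X_sub_C_of_monic_of_roots_card_eq h1 (by
    rw [FiniteField.roots_X_pow_card_sub_X,
      FiniteField.X_pow_card_sub_X_natDegree_eq F Fintype.one_lt_card]
    rfl)
  rw [FiniteField.roots_X_pow_card_sub_X] at h2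
  rw [← h2]
  change _ = ∏ c : F, (X - C c : F[X])
  exact Fintype.prod_equiv (Equiv.neg F) _ _ fun c => by simp

theorem prod_lin (y M : F[X]) (hM : M ≠ 0) :
    ∏ c : F, (y + C c * M) = y ^ Fintype.card F - M ^ (Fintype.card F - 1) * y := by
  apply IsFractionRing.injective F[X] (RatFunc F)
  set y' := algebraMap F[X] (RatFunc F) y
  set M' := algebraMap F[X] (RatFunc F) M
  have hM' : M' ≠ 0 := by simpa [M'] using hM
  have h1 := congrArg (aeval (y' / M')) (prod_X_add_C (F := F))
  simp only [map_prod, map_add, aeval_X, aeval_C, map_sub, map_pow] at h1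
  have h2 : ∀ c : F, algebraMap F[X] (RatFunc F) (y + C c * M) =
      M' * (y' / M' + algebraMap F (RatFunc F) c) := by
    intro c
    rw [map_add, map_mul, RatFunc.algebraMap_C, mul_add, mul_div_cancel₀ _ hM', mul_comm M']
    rfl
  obtain ⟨n, hn⟩ : ∃ n, Fintype.card F = n + 1 := ⟨Fintype.card F - 1, by
    have : 1 < Fintype.card F := Fintype.one_lt_card
    omega⟩
  simp only [map_prod, h2, Finset.prod_mul_distrib, h1, Finset.prod_const, Finset.card_univ,
    map_sub, map_mul, map_pow]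
  rw [hn, Nat.add_sub_cancel]
  change M' ^ (n + 1) * ((y' / M') ^ (n + 1) - y' / M') = y' ^ (n + 1) - M' ^ n * y'
  rw [div_pow]
  field_simp
  ring

theorem add_pow_card (x y : F[X]) : (x + y) ^ Fintype.card F =
    x ^ Fintype.card F + y ^ Fintype.card F := by
  obtain ⟨p, hp⟩ := CharP.exists F
  obtain ⟨k, hk, hq⟩ := FiniteField.card F p
  have := Fact.mk hk
  rw [hq, add_pow_char_pow]

theorem sub_pow_card (x y : F[X]) : (x - y) ^ Fintype.card F =
    x ^ Fintype.card F - y ^ Fintype.card F := by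
  obtain ⟨p, hp⟩ := CharP.exists F
  obtain ⟨k, hk, hq⟩ := FiniteField.card F p
  have := Fact.mk hk
  rw [hq, sub_pow_char_pow]

theorem ee_lin (j : ℕ) : (∀ x y : F[X], ee j (x + y) = ee j x + ee j y) ∧
    (∀ (c : F) (x : F[X]), ee j (C c * x) = C c * ee j x) ∧
    ∀ x : F[X], ee (j + 1) x = ee j x ^ Fintype.card F - MM F j ^ (Fintype.card F - 1) * ee j x := by
  have key : ∀ j, (∀ x y : F[X], ee j (x + y) = ee j x + ee j y) →
      (∀ (c : F) (x : F[X]), ee j (C c * x) = C c * ee j x) → ∀ x : F[X],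
      ee (j + 1) x = ee j x ^ Fintype.card F - MM F j ^ (Fintype.card F - 1) * ee j x := by
    intro j h1 h2 x
    rw [ee_succ_prod, ← prod_lin _ _ (MM_ne_zero j)]
    apply Finset.prod_congr rfl
    intro c _
    rw [h1, h2, MM_eq]
  induction j with
  | zero =>
    have h1 : ∀ x y : F[X], ee 0 (x + y) = ee 0 x + ee 0 y := by simp [ee_zero_deg]
    have h2 : ∀ (c : F) (x : F[X]), ee 0 (C c * x) = C c * ee 0 x := by simp [ee_zero_deg]
    exact ⟨h1, h2, key 0 h1 h2⟩
  | succ j ih =>
    obtain ⟨i1, i2, i3⟩ := ih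
    have h1 : ∀ x y : F[X], ee (j + 1) (x + y) = ee (j + 1) x + ee (j + 1) y := by
      intro x y
      rw [i3, i3, i3, i1, add_pow_card]
      ring
    have h2 : ∀ (c : F) (x : F[X]), ee (j + 1) (C c * x) = C c * ee (j + 1) x := by
      intro c x
      rw [i3, i3, i2, mul_pow, ← map_pow, FiniteField.pow_card]
      ring
    exact ⟨h1, h2, key _ h1 h2⟩

theorem ee_X_pow (j : ℕ) : ee (j + 1) (X ^ j : F[X]) = 0 := by
  apply Finset.prod_eq_zero (i := -X ^ j)
  · rw [mem_Low, degree_neg, degree_X_pow]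
    exact_mod_cast Nat.lt_succ_self j
  · simp

theorem ee_X_mul (j : ℕ) : ∀ x : F[X], ee (j + 1) (X * x) = X * ee (j + 1) x +
    (X ^ Fintype.card F ^ (j + 1) - X) * ee j x ^ Fintype.card F := by
  induction j with
  | zero =>
    intro x
    have hM : MM F 0 = 1 := by rw [MM_eq, ee_zero_deg, pow_zero]
    rw [(ee_lin 0).2.2, (ee_lin 0).2.2, ee_zero_deg, ee_zero_deg, hM, mul_pow]
    simp only [zero_add, pow_one, one_pow]
    ring
  | succ j ih =>
    intro x
    have hM : MM F (j + 1) = (X ^ Fintype.card F ^ (j + 1) - X) * MM F j ^ Fintype.card F := by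
      rw [MM_eq, pow_succ' X j, ih, ee_X_pow, MM_eq, mul_zero, zero_add]
    obtain ⟨n, hn⟩ : ∃ n, Fintype.card F = n + 1 := ⟨Fintype.card F - 1, by
      have : 1 < Fintype.card F := Fintype.one_lt_card
      omega⟩
    have h1 : ee (j + 1) x ^ Fintype.card F = (ee j x ^ Fintype.card F) ^ Fintype.card F -
        (MM F j ^ Fintype.card F) ^ n * ee j x ^ Fintype.card F := by
      rw [(ee_lin j).2.2, sub_pow_card, mul_pow, ← pow_mul (MM F j), ← pow_mul (MM F j), hn,
        Nat.add_sub_cancel, mul_comm n]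
    have h2 : (X ^ Fintype.card F ^ (j + 1) - X : F[X]) ^ Fintype.card F =
        X ^ Fintype.card F ^ (j + 1 + 1) - X ^ Fintype.card F := by
      rw [sub_pow_card, ← pow_mul, ← pow_succ]
    have h3 : (X ^ Fintype.card F ^ (j + 1) - X : F[X]) ^ Fintype.card F =
        (X ^ Fintype.card F ^ (j + 1) - X) ^ n * (X ^ Fintype.card F ^ (j + 1) - X) := by
      rw [← pow_succ, ← hn]
    have h4 : Fintype.card F - 1 = n := by omega
    rw [(ee_lin (j + 1)).2.2, (ee_lin (j + 1)).2.2, ih, add_pow_card, mul_pow, mul_pow, hM, mul_pow,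
      h4]
    linear_combination (-(X ^ Fintype.card F ^ (j + 1) - X) ^ Fintype.card F) * h1 +
      (ee (j + 1) x ^ Fintype.card F) * h2 +
      ((MM F j ^ Fintype.card F) ^ n * ee j x ^ Fintype.card F) * h3

theorem MM_succ (j : ℕ) :
    MM F (j + 1) = (X ^ Fintype.card F ^ (j + 1) - X) * MM F j ^ Fintype.card F := by
  rw [MM_eq, pow_succ' X j, ee_X_mul, ee_X_pow, MM_eq, mul_zero, zero_add]

open Classical in
theorem Dv_eq (v : F[X]) (j : ℕ) : Dv v j = ∏ a ∈ (Mon F j).filter (fun a => ¬ v ∣ a), a := by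
  have h : {a : F[X] | a.Monic ∧ a.natDegree = j ∧ ¬ v ∣ a} =
      ((Mon F j).filter (fun a => ¬ v ∣ a) : Finset F[X]) := by
    ext a
    simp [mem_Mon, and_assoc]
  rw [Dv, h, finprod_mem_coe_finset]

theorem MM_add {v : F[X]} (hv : v.Monic) (j : ℕ) :
    MM F (j + v.natDegree) = Dv v (j + v.natDegree) * v ^ Fintype.card F ^ j * MM F j := by
  classical
  rw [MM, Dv_eq, ← Finset.prod_filter_mul_prod_filter_not _ (fun a => ¬ v ∣ a), mul_assoc]
  congr 1
  rw [MM, ← card_Mon, ← Finset.prod_const, ← Finset.prod_mul_distrib]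
  symm
  apply Finset.prod_nbij (fun b => v * b)
  · intro b hb
    obtain ⟨h1, h2⟩ := mem_Mon.1 hb
    simp only [Finset.mem_filter, not_not, mem_Mon]
    exact ⟨⟨hv.mul h1, by rw [hv.natDegree_mul h1, h2, add_comm]⟩, dvd_mul_right _ _⟩
  · intro a _ b _ h
    exact mul_left_cancel₀ hv.ne_zero h
  · intro a ha
    simp only [Finset.coe_filter, not_not, mem_Mon, Set.mem_setOf_eq] at ha
    obtain ⟨⟨h1, h2⟩, b, rfl⟩ := ha
    have h3 : b.Monic := hv.of_mul_monic_left h1
    refine ⟨b, mem_Mon.2 ⟨h3, ?_⟩, rfl⟩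
    rw [hv.natDegree_mul h3] at h2
    omega
  · intro _ _
    rfl

/-- the residues of the monic polynomials of degree `j` modulo a monic `u` of degree at most `j`
are equidistributed -/
theorem prod_residue {u : F[X]} (hu : u.Monic) {j : ℕ} (hj : u.natDegree ≤ j) {R : Type}
    [CommRing R] [Fintype R] [DecidableEq R] (π : F[X] →+* R) (hπ : Function.Surjective π)
    (hker : π u = 0) (P : R → Prop) [DecidablePred P] :
    ∃ n : ℕ, n * Fintype.card R = Fintype.card F ^ j ∧
      ∏ a ∈ (Mon F j).filter (fun a => P (π a)), π a = (∏ x ∈ Finset.univ.filter P, x) ^ n := by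
  classical
  have hfib : ∀ x y : R, ((Mon F j).filter fun a => π a = x).card ≤
      ((Mon F j).filter fun a => π a = y).card := by
    intro x y
    obtain ⟨b, hb⟩ := hπ (y - x)
    have h1 : π (b %ₘ u) = y - x := by
      rw [modByMonic_eq_sub_mul_div b u, map_sub, map_mul, hker, zero_mul, sub_zero, hb]
    have h2 : (b %ₘ u).degree < j := by
      refine lt_of_lt_of_le (degree_modByMonic_lt b hu) ?_
      rw [degree_eq_natDegree hu.ne_zero]
      exact_mod_cast hj
    apply Finset.card_le_card_of_injOn (fun a => a + b %ₘ u)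
    · intro a ha
      simp only [Finset.coe_filter, mem_Mon, Set.mem_setOf_eq] at ha ⊢
      obtain ⟨⟨h3, h4⟩, h5⟩ := ha
      have h6 : (b %ₘ u).degree < a.degree := by rwa [degree_eq_natDegree h3.ne_zero, h4]
      refine ⟨⟨h3.add_of_left h6, ?_⟩, ?_⟩
      · rw [natDegree_add_eq_left_of_degree_lt h6, h4]
      · rw [map_add, h1, h5]
        ring
    · intro a _ a' _ h
      exact add_right_cancel h
  have hn : ∀ x : R, ((Mon F j).filter fun a => π a = x).card =
      ((Mon F j).filter fun a => π a = 0).card := fun x => le_antisymm (hfib _ _) (hfib _ _)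
  refine ⟨((Mon F j).filter fun a => π a = 0).card, ?_, ?_⟩
  · rw [← card_Mon, Finset.card_eq_sum_card_fiberwise (f := π) (s := Mon F j) (t := Finset.univ)
      (fun _ _ => Finset.mem_univ _)]
    simp only [hn, Finset.sum_const, Finset.card_univ, smul_eq_mul, mul_comm]
  · rw [← Finset.prod_fiberwise_of_maps_to (t := Finset.univ.filter P) (g := π)
      (fun a ha => by simpa using (Finset.mem_filter.1 ha).2), ← Finset.prod_pow]
    apply Finset.prod_congr rfl
    intro x hx
    have hx' : P x := (Finset.mem_filter.1 hx).2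
    rw [← hn x, ← Finset.prod_const, Finset.filter_filter]
    apply Finset.prod_congr
    · ext a
      simp only [Finset.mem_filter]
      constructor
      · rintro ⟨h1, -, h2⟩
        exact ⟨h1, h2⟩
      · rintro ⟨h1, h2⟩
        exact ⟨h1, h2 ▸ hx', h2⟩
    · intro a ha
      exact (Finset.mem_filter.1 ha).2

theorem prod_units_sq {R : Type} [CommRing R] [Fintype R] [DecidableEq R]
    [DecidablePred (IsUnit : R → Prop)] : (∏ x ∈ Finset.univ.filter IsUnit, x : R) ^ 2 = 1 := by
  classical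
  have h1 : (∏ x ∈ Finset.univ.filter IsUnit, x : R) = ((∏ x : Rˣ, x : Rˣ) : R) := by
    rw [Units.coe_prod]
    symm
    apply Finset.prod_nbij (fun x : Rˣ => (x : R))
    · intro x _
      simp
    · intro x _ y _ h
      exact Units.ext h
    · intro x hx
      simp only [Finset.coe_filter, Finset.mem_univ, true_and, Set.mem_setOf_eq] at hx
      obtain ⟨u, rfl⟩ := hx
      exact ⟨u, by simp, rfl⟩
    · intro _ _
      rfl
  have h2 : (∏ x : Rˣ, x) = ∏ x : Rˣ, x⁻¹ := (Fintype.prod_equiv (Equiv.inv Rˣ) _ _ fun x => by simp)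
  have h3 : (∏ x : Rˣ, x) ^ 2 = 1 := by
    rw [pow_two]
    nth_rewrite 2 [h2]
    rw [← Finset.prod_mul_distrib]
    simp
  rw [h1, ← Units.val_pow_eq_pow_val, h3, Units.val_one]

theorem isUnit_mk_iff {v : F[X]} (hi : Irreducible v) {m : ℕ} (hm : 0 < m) (a : F[X]) :
    IsUnit (AdjoinRoot.mk (v ^ m) a) ↔ ¬ v ∣ a := by
  constructor
  · intro h hd
    obtain ⟨b, hb⟩ := h.exists_right_inv
    obtain ⟨b, rfl⟩ := AdjoinRoot.mk_surjective b
    rw [← map_mul, ← map_one (AdjoinRoot.mk (v ^ m)), AdjoinRoot.mk_eq_mk] at hb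
    have h1 : v ∣ a * b - 1 := (dvd_pow_self v hm.ne').trans hb
    exact hi.not_dvd_one ((dvd_sub_right (hd.mul_right b)).1 h1)
  · intro h
    obtain ⟨s, t, hst⟩ := ((hi.coprime_iff_not_dvd.2 h).pow_left (m := m))
    have h1 := congrArg (AdjoinRoot.mk (v ^ m)) hst
    rw [map_add, map_mul, map_mul, AdjoinRoot.mk_self, mul_zero, zero_add, map_one] at h1
    exact IsUnit.of_mul_eq_one_right _ h1

theorem finite_adjoinRoot {u : F[X]} (hu : u.Monic) : Finite (AdjoinRoot u) := by
  have := (AdjoinRoot.powerBasis' hu).finite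
  exact Module.finite_of_finite F

theorem Dv_sq {v : F[X]} (hv : v.Monic) (hi : Irreducible v) {m : ℕ} (hm : 0 < m) {j : ℕ}
    (hj : m * v.natDegree ≤ j) : v ^ m ∣ Dv v j ^ 2 - 1 := by
  classical
  have := finite_adjoinRoot (hv.pow m)
  have := Fintype.ofFinite (AdjoinRoot (v ^ m))
  obtain ⟨n, -, hn⟩ := prod_residue (hv.pow m) (j := j) (by rwa [hv.natDegree_pow])
    (AdjoinRoot.mk (v ^ m)) AdjoinRoot.mk_surjective AdjoinRoot.mk_self IsUnit
  rw [← AdjoinRoot.mk_eq_mk, map_pow, map_one, Dv_eq, map_prod]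
  simp only [isUnit_mk_iff hi hm] at hn
  rw [hn, ← pow_mul, mul_comm, pow_mul, prod_units_sq, one_pow]

theorem Dv_add_one {v : F[X]} (hv : v.Monic) (hi : Irreducible v) {j : ℕ}
    (hj : v.natDegree ≤ j) : v ∣ Dv v j + 1 := by
  classical
  have := Fact.mk hi
  have := finite_adjoinRoot hv
  have := Fintype.ofFinite (AdjoinRoot v)
  obtain ⟨n, hn0, hn⟩ := prod_residue hv hj
    (AdjoinRoot.mk v) AdjoinRoot.mk_surjective AdjoinRoot.mk_self (fun x => x ≠ 0)
  have h1 : (∏ x ∈ Finset.univ.filter (fun x => x ≠ 0), x : AdjoinRoot v) = -1 := by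
    have h2 := congrArg (Units.val) (FiniteField.prod_univ_units_id_eq_neg_one (K := AdjoinRoot v))
    rw [Units.coe_prod, Units.val_neg, Units.val_one] at h2
    rw [← h2]
    symm
    apply Finset.prod_nbij (fun x : (AdjoinRoot v)ˣ => (x : AdjoinRoot v))
    · intro x _
      simp
    · intro x _ y _ h
      exact Units.ext h
    · intro x hx
      simp only [Finset.coe_filter, Finset.mem_univ, true_and, Set.mem_setOf_eq] at hx
      exact ⟨Units.mk0 x hx, by simp, rfl⟩
    · intro _ _
      rfl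
  simp only [ne_eq, AdjoinRoot.mk_eq_zero] at hn
  rw [← AdjoinRoot.mk_eq_zero, map_add, map_one, Dv_eq, map_prod]
  simp only [ne_eq] at h1
  rw [hn, h1]
  obtain ⟨p, hp⟩ := CharP.exists F
  obtain ⟨k, hk, hq⟩ := FiniteField.card F p
  rcases hk.eq_two_or_odd' with rfl | hodd
  · have : CharP (AdjoinRoot v) 2 := charP_of_injective_algebraMap
      (algebraMap F (AdjoinRoot v)).injective 2
    rw [CharTwo.neg_eq, one_pow, CharTwo.add_self_eq_zero]
  · have h3 : Odd (n * Fintype.card (AdjoinRoot v)) := by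
      rw [hn0, hq]
      exact hodd.pow.pow
    rw [(Nat.Odd.of_mul_left h3).neg_one_pow, neg_add_cancel]

theorem Dv_lim {v : F[X]} (hv : v.Monic) (hi : Irreducible v) (m : ℕ) :
    ∀ᶠ j in atTop, v ^ m ∣ -Dv v j - 1 := by
  filter_upwards [eventually_ge_atTop ((2 * m + 1) * v.natDegree)] with j hj
  have h1 := Dv_sq hv hi (by omega : 0 < 2 * m + 1) hj
  have h2 := Dv_add_one hv hi (j := j) (by nlinarith)
  have h3 : -Dv v j - 1 = -(Dv v j + 1) := by ring
  rw [h3, dvd_neg]
  have h4 : Dv v j ^ 2 - 1 = (Dv v j - 1) * (Dv v j + 1) := by ring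
  by_cases h5 : v ∣ Dv v j - 1
  · have h6 : v ∣ C (2 : F) := by
      have := dvd_sub h2 h5
      rw [map_ofNat]
      convert this using 1
      ring
    have h7 : (2 : F) = 0 := by
      by_contra h8
      exact hi.not_isUnit (isUnit_of_dvd_unit h6 (isUnit_C.2 (isUnit_iff_ne_zero.2 h8)))
    have h8 : (2 : F[X]) = 0 := by rw [← map_ofNat (C : F →+* F[X]) 2, h7, map_zero]
    have h9 : Dv v j ^ 2 - 1 = (Dv v j + 1) ^ 2 := by linear_combination (-Dv v j - 1) * h8
    rw [h9] at h1
    have h10 : (v ^ m) ^ 2 ∣ (Dv v j + 1) ^ 2 := by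
      refine dvd_trans ?_ h1
      rw [← pow_mul]
      exact pow_dvd_pow _ (by omega)
    exact (IsIntegrallyClosed.pow_dvd_pow_iff two_ne_zero).1 h10
  · rw [h4] at h1
    exact (pow_dvd_pow _ (by omega)).trans
      (((hi.coprime_iff_not_dvd.2 h5).pow_left (m := 2 * m + 1)).dvd_of_dvd_mul_left h1)

theorem not_dvd_Dv {v : F[X]} (hi : Irreducible v) (j : ℕ) : ¬ v ∣ Dv v j := by
  classical
  rw [Dv_eq, hi.prime.dvd_finset_prod_iff]
  rintro ⟨a, ha, h⟩
  exact (Finset.mem_filter.1 ha).2 h

end Pool.Agent.H629Z.Yao
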