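import Pool.Agent.H629Z.Yao.Series
import Pool.Agent.H629Z.Yao.Poly

set_option autoImplicit false

/-! Transfer from the `v`-adic completion to power series. -/

namespace Pool.Agent.H629Z.Yao

open Filter Topology IsDedekindDomain

section transfer

variable {F : Type} [Field F] {L : Type} [Field L] [Algebra F L]

/-- the substitution `t ↦ θ + X` -/
noncomputable def ph0 (θ : L) : Polynomial F →+* Polynomial L :=
  (Polynomial.taylorAlgHom θ).toRingHom.comp (Polynomial.mapRingHom (algebraMap F L))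

/-- the substitution `t ↦ θ + X` into power series -/
noncomputable def ph (θ : L) : Polynomial F →+* PowerSeries L :=
  Polynomial.coeToPowerSeries.ringHom.comp (ph0 θ)

theorem ph0_apply (θ : L) (a : Polynomial F) :
    ph0 θ a = Polynomial.taylor θ (a.map (algebraMap F L)) := rfl

theorem ph_apply (θ : L) (a : Polynomial F) : ph θ a = (ph0 θ a : PowerSeries L) := rfl

theorem ph_X (θ : L) : ph θ (Polynomial.X : Polynomial F) = tt θ := by
  rw [ph_apply, ph0_apply, Polynomial.map_X, Polynomial.taylor_X, tt, add_comm]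
  simp

theorem ph0_injective (θ : L) : Function.Injective (ph0 (F := F) θ) :=
  (Polynomial.taylor_injective θ).comp (Polynomial.map_injective _ (algebraMap F L).injective)

theorem ph_injective (θ : L) : Function.Injective (ph (F := F) θ) :=
  (Polynomial.coe_injective L).comp (ph0_injective θ)

theorem const_ph (θ : L) (a : Polynomial F) :
    PowerSeries.constantCoeff (ph θ a) = Polynomial.aeval θ a := by
  rw [ph_apply, ← PowerSeries.coeff_zero_eq_constantCoeff_apply, Polynomial.coeff_coe, ph0_apply,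
    Polynomial.taylor_coeff_zero, Polynomial.eval_map_algebraMap]

theorem aeval_pow_card [Fintype F] (θ : L) (a : Polynomial F) (h : Polynomial.aeval θ a = 0)
    (j : ℕ) : Polynomial.aeval (θ ^ Fintype.card F ^ j) a = 0 := by
  induction j with
  | zero => simpa using h
  | succ j ih =>
    have h1 := Polynomial.aeval_algHom_apply (FiniteField.frobeniusAlgHom F L)
      (θ ^ Fintype.card F ^ j) a
    rw [ih, map_zero, FiniteField.coe_frobeniusAlgHom] at h1
    rw [pow_succ, pow_mul]
    exact h1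

theorem data [Fintype F] {v : Polynomial F} (hv : v.Monic) (hi : Irreducible v) (θ : L)
    (hθ : ∀ a : Polynomial F, Polynomial.aeval θ a = 0 ↔ v ∣ a)
    (hfix : ∀ x : L, x ^ Fintype.card F ^ v.natDegree = x) :
    Data (Fintype.card F) v.natDegree θ (ph θ v) (fun j => ph θ (MM F j))
      (fun j => ph θ (-Dv v j)) := by
  have hd : 0 < v.natDegree := hi.natDegree_pos
  have hXV : PowerSeries.X ∣ ph θ v := by
    rw [PowerSeries.X_dvd_iff, const_ph, hθ]
  refine ⟨hd, hfix, ?_, ?_, ?_, ?_, ?_, ?_, ?_⟩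
  · intro j
    have hm : (ph0 θ v).Monic := by
      rw [Polynomial.Monic, ph0_apply, Polynomial.leadingCoeff_taylor]
      exact hv.map _
    have hdeg : (ph0 θ v).natDegree = v.natDegree := by
      rw [ph0_apply, Polynomial.natDegree_taylor, Polynomial.natDegree_map]
    have hroot : (ph0 θ v).IsRoot (θ ^ Fintype.card F ^ j - θ) := by
      rw [Polynomial.IsRoot, ph0_apply, Polynomial.taylor_eval_sub, Polynomial.eval_map_algebraMap]
      exact aeval_pow_card θ v ((hθ v).2 dvd_rfl) j
    obtain ⟨W, hW⟩ := Polynomial.dvd_iff_isRoot.2 hroot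
    have hWm : W.Monic := (Polynomial.monic_X_sub_C _).of_mul_monic_left (hW ▸ hm)
    have hWd : W.natDegree = v.natDegree - 1 := by
      rw [hW, (Polynomial.monic_X_sub_C _).natDegree_mul hWm, Polynomial.natDegree_X_sub_C] at hdeg
      omega
    refine ⟨((-W : Polynomial L) : PowerSeries L), Pol.coe _ (by simp [hWd]), ?_, ?_⟩
    · rw [Polynomial.coeff_coe, Polynomial.coeff_neg, ← hWd, hWm.coeff_natDegree]
      simp
    · rw [ph_apply, hW, uu]
      simp only [Polynomial.coe_mul, Polynomial.coe_sub, Polynomial.coe_X, Polynomial.coe_C,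
        Polynomial.coe_neg]
      ring
  · intro j h
    exact MM_ne_zero j (ph_injective θ (by rw [map_zero]; exact h))
  · intro j
    simp only [MM_succ, map_mul, map_sub, map_pow, ph_X, br]
  · intro j
    simp only [MM_add hv, map_mul, map_pow, map_neg, neg_neg]
  · intro N
    filter_upwards [Dv_lim hv hi N] with j hj
    have h1 := map_dvd (ph θ) hj
    rw [map_pow, map_sub, map_one] at h1
    exact (pow_dvd_pow_of_dvd hXV N).trans h1
  · intro j
    rw [PowerSeries.isUnit_iff_constantCoeff, const_ph, isUnit_iff_ne_zero, Ne, hθ, dvd_neg]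
    exact not_dvd_Dv hi j
  · intro j
    exact alg_coe _

theorem Lim.eval {s : ℕ → PowerSeries L} {y : PowerSeries L} (h : Lim s y)
    (G : Polynomial (PowerSeries L)) : Lim (fun J => G.eval (s J)) (G.eval y) := by
  intro N
  filter_upwards [h N] with J hJ
  exact hJ.trans (Polynomial.sub_dvd_eval_sub _ _ _)

end transfer

section valued

variable {F : Type} [Field F] (𝔭 : HeightOneSpectrum (Polynomial F))

theorem val_alg (a : Polynomial F) :
    Valued.v (algebraMap (Polynomial F) (𝔭.adicCompletion (RatFunc F)) a) = 𝔭.intValuation a := by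
  rw [HeightOneSpectrum.algebraMap_adicCompletion, Function.comp_apply,
    HeightOneSpectrum.valuedAdicCompletion_eq_valuation', HeightOneSpectrum.valuation_of_algebraMap]

theorem val_le_iff {v : Polynomial F} (h𝔭 : 𝔭.asIdeal = Ideal.span {v}) (a : Polynomial F)
    (m : ℕ) : Valued.v (algebraMap (Polynomial F) (𝔭.adicCompletion (RatFunc F)) a) ≤
      WithZero.exp (-(m : ℤ)) ↔ v ^ m ∣ a := by
  rw [val_alg, HeightOneSpectrum.intValuation_le_pow_iff_mem, h𝔭, Ideal.span_singleton_pow,
    Ideal.mem_span_singleton]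

theorem ball_mem (m : ℕ) : {x : 𝔭.adicCompletion (RatFunc F) |
    Valued.v x ≤ WithZero.exp (-(m : ℤ))} ∈ 𝓝 (0 : 𝔭.adicCompletion (RatFunc F)) := by
  obtain ⟨z, hz⟩ := HeightOneSpectrum.valuedAdicCompletion_surjective (RatFunc F) 𝔭
    (WithZero.exp (-(m : ℤ)))
  have hz0 : z ≠ 0 := by
    rintro rfl
    rw [map_zero] at hz
    exact WithZero.exp_ne_zero hz.symm
  have h0 : Valued.v.restrict z ≠ 0 := by simp [hz0]
  rw [Valued.mem_nhds_zero]
  refine ⟨Units.mk0 _ h0, fun x hx => ?_⟩
  have h1 : Valued.v.restrict x < Valued.v.restrict z := hx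
  rw [Valuation.restrict_lt_iff, hz] at h1
  exact h1.le

theorem exists_tendsto {v : Polynomial F} (h𝔭 : 𝔭.asIdeal = Ideal.span {v})
    (s : ℕ → Polynomial F) (hs : ∀ m, ∀ᶠ J in atTop, v ^ m ∣ s (J + 1) - s J) :
    ∃ x : 𝔭.adicCompletion (RatFunc F),
      Tendsto (fun J => algebraMap (Polynomial F) (𝔭.adicCompletion (RatFunc F)) (s J)) atTop
        (𝓝 x) := by
  apply cauchySeq_tendsto_of_complete
  rw [(Valued.hasBasis_uniformity _ _).cauchySeq_iff']
  intro γ _
  obtain ⟨m, hm⟩ : ∃ m : ℕ, WithZero.exp (-(m : ℤ)) <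
      MonoidWithZeroHom.ValueGroup₀.embedding γ.1 := by
    have h0 : MonoidWithZeroHom.ValueGroup₀.embedding γ.1 ≠ 0 := by simp
    refine ⟨(WithZero.log (MonoidWithZeroHom.ValueGroup₀.embedding γ.1)).natAbs + 1, ?_⟩
    conv_rhs => rw [← WithZero.exp_log h0]
    rw [WithZero.exp_lt_exp]
    omega
  obtain ⟨J₀, hJ₀⟩ := eventually_atTop.1 (hs m)
  refine ⟨J₀, fun J hJ => ?_⟩
  have h1 : v ^ m ∣ s J₀ - s J := by
    induction J, hJ using Nat.le_induction with
    | base => simp
    | succ J hJ ih =>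
      have := dvd_sub ih (hJ₀ J hJ)
      simpa using this
  simp only [Set.mem_setOf_eq]
  rw [Valuation.restrict_lt_iff_lt_embedding, ← map_sub]
  exact lt_of_le_of_lt ((val_le_iff 𝔭 h𝔭 _ m).2 h1) hm

end valued

theorem final (p k : ℕ) [hp : Fact p.Prime] (F : Type) [Field F] [Fintype F]
    (hq : Fintype.card F = p ^ k) (v : Polynomial F) (hv : v.Monic) (hi : Irreducible v)
    (𝔭 : HeightOneSpectrum (Polynomial F)) (h𝔭 : 𝔭.asIdeal = Ideal.span {v})
    (c : ℕ → ℕ) (hc : ∀ j, c j < p ^ k) :
    ∃ x : 𝔭.adicCompletion (RatFunc F),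
      Tendsto (fun J => ∏ j ∈ Finset.range J,
        algebraMap (Polynomial F) (𝔭.adicCompletion (RatFunc F)) (-Dv v j) ^ c j) atTop (𝓝 x) ∧
      (IsAlgebraic (RatFunc F) x → ∃ J, ∀ j, J ≤ j → c (j + v.natDegree) = c j) := by
  let s : ℕ → Polynomial F := fun J => ∏ j ∈ Finset.range J, (-Dv v j) ^ c j
  obtain ⟨x, hx⟩ := exists_tendsto 𝔭 h𝔭 s (by
    intro m
    filter_upwards [Dv_lim hv hi m] with J hJ
    have h1 : s (J + 1) - s J = s J * ((-Dv v J) ^ c J - 1 ^ c J) := by
      simp only [s, Finset.prod_range_succ]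
      ring
    rw [h1]
    exact (hJ.trans (sub_dvd_pow_sub_pow _ _ _)).mul_left _)
  refine ⟨x, by simpa only [s, map_prod, map_pow] using hx, fun ha => ?_⟩
  have hchar : CharP F p := charP_of_card_eq_prime_pow hq
  have hk : 0 < k := by
    rcases Nat.eq_zero_or_pos k with h0 | h0
    · have : 1 < Fintype.card F := Fintype.one_lt_card
      rw [h0, pow_zero] at hq
      omega
    · exact h0
  have := Fact.mk hi
  have := finite_adjoinRoot hv
  have := Fintype.ofFinite (AdjoinRoot v)
  have hL : CharP (AdjoinRoot v) p := charP_of_injective_algebraMap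
    (algebraMap F (AdjoinRoot v)).injective p
  have hd : 0 < v.natDegree := hi.natDegree_pos
  have hfix : ∀ y : AdjoinRoot v, y ^ Fintype.card F ^ v.natDegree = y := by
    intro y
    have h1 : Fintype.card (AdjoinRoot v) = Fintype.card F ^ v.natDegree := by
      rw [Module.card_eq_pow_finrank (K := F), (AdjoinRoot.powerBasis' hv).finrank]
      rfl
    rw [← h1, FiniteField.pow_card]
  have hS : Setup (Fintype.card F) (iterateFrobenius (AdjoinRoot v) p (k * (v.natDegree - 1))) := by
    refine ⟨⟨p, k, hp.out, hL, hk, hq⟩, fun y => ?_⟩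
    rw [iterateFrobenius_def, pow_mul p, ← hq, ← pow_mul, ← pow_succ, Nat.sub_add_cancel hd, hfix]
  set θ := AdjoinRoot.root v
  have hθ : ∀ a : Polynomial F, Polynomial.aeval θ a = 0 ↔ v ∣ a := by
    intro a
    rw [AdjoinRoot.aeval_eq, AdjoinRoot.mk_eq_zero]
  have D := data hv hi θ hθ hfix
  obtain ⟨y, hy⟩ := PP_lim D.wlim c
  have hPP : ∀ J, PP (fun j => ph θ (-Dv v j)) c J = ph θ (s J) := by
    intro J
    simp only [PP, s, map_prod, map_pow]
  obtain ⟨G, hG0, hG⟩ := (IsFractionRing.isAlgebraic_iff (Polynomial F) (RatFunc F) _).2 ha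
  have h1 : Tendsto (fun J => algebraMap (Polynomial F) (𝔭.adicCompletion (RatFunc F))
      (G.eval (s J))) atTop (𝓝 0) := by
    have h2 := ((G.map (algebraMap (Polynomial F)
      (𝔭.adicCompletion (RatFunc F)))).continuous.tendsto x).comp hx
    rw [Polynomial.eval_map_algebraMap, hG] at h2
    refine h2.congr fun J => ?_
    simp only [Function.comp_apply, Polynomial.eval_map_algebraMap,
      Polynomial.aeval_algebraMap_apply_eq_algebraMap_eval]
  have hXV : PowerSeries.X ∣ ph θ v := by
    rw [PowerSeries.X_dvd_iff, const_ph, hθ]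
  have h2 : Lim (fun J => (G.map (ph θ)).eval (PP (fun j => ph θ (-Dv v j)) c J)) 0 := by
    intro N
    filter_upwards [h1.eventually (ball_mem 𝔭 N)] with J hJ
    have h3 := map_dvd (ph θ) ((val_le_iff 𝔭 h𝔭 _ N).1 hJ)
    rw [map_pow] at h3
    rw [hPP, sub_zero, Polynomial.eval_map, Polynomial.eval₂_hom]
    exact (pow_dvd_pow_of_dvd hXV N).trans h3
  have h3 : (G.map (ph θ)).eval y = 0 := (hy.eval _).unique h2
  have hya : IsAlgebraic (Polynomial (AdjoinRoot v)) y := by
    refine ⟨G.map (ph0 θ), (Polynomial.map_ne_zero_iff (ph0_injective θ)).2 hG0, ?_⟩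
    rw [← h3, ← Polynomial.eval_map_algebraMap, Polynomial.map_map]
    congr 2
  exact eventually_atTop.1 (D.main hS p hp.out k c y hc hy hya)

end Pool.Agent.H629Z.Yao
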