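import Pool.Agent.H629Z.Yao.Core

set_option autoImplicit false

/-! Limits of power series and the theorem at the level of power series. -/

namespace Pool.Agent.H629Z.Yao

open PowerSeries Filter

variable {L : Type} [Field L] {q : ℕ} {τ : L →+* L}

theorem alg_of_mul {y z : L⟦X⟧} (hy : y ≠ 0) (ha : IsAlgebraic (Polynomial L) y)
    (hyz : IsAlgebraic (Polynomial L) (y * z)) : IsAlgebraic (Polynomial L) z := by
  have h1 : y ∈ nonZeroDivisors L⟦X⟧ := mem_nonZeroDivisors_of_ne_zero hy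
  exact IsAlgebraic.of_mul h1 ha hyz

theorem unit_prod {w : ℕ → L⟦X⟧} (hw : ∀ j, IsUnit (w j)) (T : Finset ℕ) (g e : ℕ → ℕ) :
    IsUnit (∏ r ∈ T, w (g r) ^ e r) :=
  Finset.prod_induction _ _ (fun _ _ ha hb => ha.mul hb) isUnit_one fun _ _ => (hw _).pow _

/-- coefficientwise convergence -/
def Lim (s : ℕ → L⟦X⟧) (y : L⟦X⟧) : Prop := ∀ N, ∀ᶠ J in atTop, X ^ N ∣ s J - y

theorem eq_zero_of_dvd {f : L⟦X⟧} (h : ∀ N, X ^ N ∣ f) : f = 0 := by
  ext n
  exact X_pow_dvd_iff.1 (h (n + 1)) n (by omega)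

theorem Lim.unique {s : ℕ → L⟦X⟧} {y z : L⟦X⟧} (hy : Lim s y) (hz : Lim s z) : y = z := by
  apply sub_eq_zero.1
  apply eq_zero_of_dvd
  intro N
  obtain ⟨J, h1, h2⟩ := ((hy N).and (hz N)).exists
  have := dvd_sub h2 h1
  simpa using this

theorem Lim.const (y : L⟦X⟧) : Lim (fun _ => y) y := fun N => by simp

theorem Lim.mul {s s' : ℕ → L⟦X⟧} {y y' : L⟦X⟧} (h : Lim s y) (h' : Lim s' y') :
    Lim (fun J => s J * s' J) (y * y') := by
  intro N
  filter_upwards [h N, h' N] with J h1 h2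
  have : s J * s' J - y * y' = (s J - y) * s' J + y * (s' J - y') := by ring
  rw [this]
  exact dvd_add (h1.mul_right _) (h2.mul_left _)

theorem Lim.add {s s' : ℕ → L⟦X⟧} {y y' : L⟦X⟧} (h : Lim s y) (h' : Lim s' y') :
    Lim (fun J => s J + s' J) (y + y') := by
  intro N
  filter_upwards [h N, h' N] with J h1 h2
  have : s J + s' J - (y + y') = (s J - y) + (s' J - y') := by ring
  rw [this]
  exact dvd_add h1 h2

theorem Lim.pow {s : ℕ → L⟦X⟧} {y : L⟦X⟧} (h : Lim s y) (n : ℕ) :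
    Lim (fun J => s J ^ n) (y ^ n) := by
  intro N
  filter_upwards [h N] with J h1
  exact h1.trans (sub_dvd_pow_sub_pow _ _ n)

theorem Lim.prod {ι : Type} (T : Finset ι) {s : ι → ℕ → L⟦X⟧} {y : ι → L⟦X⟧}
    (h : ∀ i ∈ T, Lim (s i) (y i)) : Lim (fun J => ∏ i ∈ T, s i J) (∏ i ∈ T, y i) := by
  classical
  induction T using Finset.induction_on with
  | empty => simpa using Lim.const 1
  | insert a T ha ih =>
    simp only [Finset.prod_insert ha]
    exact (h a (Finset.mem_insert_self _ _)).mul (ih fun i hi => h i (Finset.mem_insert_of_mem hi))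

theorem Lim.comp {s : ℕ → L⟦X⟧} {y : L⟦X⟧} (h : Lim s y) {g : ℕ → ℕ}
    (hg : Tendsto g atTop atTop) : Lim (fun m => s (g m)) y := fun N => hg.eventually (h N)

theorem Lim.congr {s s' : ℕ → L⟦X⟧} {y : L⟦X⟧} (h : Lim s y) (hs : ∀ᶠ J in atTop, s J = s' J) :
    Lim s' y := by
  intro N
  filter_upwards [h N, hs] with J h1 h2
  rwa [← h2]

theorem exists_lim {s : ℕ → L⟦X⟧} (h : ∀ N, ∀ᶠ J in atTop, X ^ N ∣ s (J + 1) - s J) :
    ∃ y, Lim s y := by
  choose J₀ hJ₀ using fun N => eventually_atTop.1 (h N)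
  have h1 : ∀ N J, J₀ N ≤ J → X ^ N ∣ s J - s (J₀ N) := by
    intro N J hJ
    induction J, hJ using Nat.le_induction with
    | base => simp
    | succ J hJ ih =>
      have := dvd_add (hJ₀ N J hJ) ih
      simpa using this
  refine ⟨PowerSeries.mk fun n => coeff n (s (J₀ (n + 1))), fun N => ?_⟩
  have h2 : ∀ n ∈ Finset.range N, ∀ᶠ J in atTop, J₀ (n + 1) ≤ J := fun n _ => eventually_ge_atTop _
  filter_upwards [(eventually_all_finset _).2 h2] with J hJ
  rw [X_pow_dvd_iff]
  intro n hn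
  have h3 := X_pow_dvd_iff.1 (h1 (n + 1) J (hJ n (Finset.mem_range.2 hn))) n (by omega)
  simpa using h3

/-- partial products -/
noncomputable def PP (w : ℕ → L⟦X⟧) (c : ℕ → ℕ) (J : ℕ) : L⟦X⟧ := ∏ j ∈ Finset.range J, w j ^ c j

theorem PP_add (w : ℕ → L⟦X⟧) (a b : ℕ → ℕ) (J : ℕ) :
    PP w (fun j => a j + b j) J = PP w a J * PP w b J := by
  simp only [PP, pow_add, Finset.prod_mul_distrib]

theorem PP_mul (w : ℕ → L⟦X⟧) (a : ℕ → ℕ) (n J : ℕ) :
    PP w (fun j => a j * n) J = PP w a J ^ n := by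
  simp only [PP, pow_mul, Finset.prod_pow]

theorem PP_lim {w : ℕ → L⟦X⟧} (hw : Lim w 1) (c : ℕ → ℕ) : ∃ y, Lim (PP w c) y := by
  apply exists_lim
  intro N
  filter_upwards [hw N] with J hJ
  have h1 : PP w c (J + 1) - PP w c J = PP w c J * (w J ^ c J - 1 ^ c J) := by
    rw [PP, Finset.prod_range_succ, PP]
    ring
  rw [h1]
  exact (hJ.trans (sub_dvd_pow_sub_pow _ _ _)).mul_left _

theorem Lim.isUnit {s : ℕ → L⟦X⟧} {y : L⟦X⟧} (h : Lim s y) (hs : ∀ J, IsUnit (s J)) :
    IsUnit y := by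
  obtain ⟨J, hJ⟩ := (h 1).exists
  have h1 := X_pow_dvd_iff.1 hJ 0 (by omega)
  have h2 := hs J
  rw [isUnit_iff_constantCoeff] at h2 ⊢
  rw [coeff_zero_eq_constantCoeff_apply, map_sub, sub_eq_zero] at h1
  rwa [← h1]

theorem X_mul_deriv_dvd {N : ℕ} {g : L⟦X⟧} (h : X ^ N ∣ g) : X ^ N ∣ X * d⁄dX L g := by
  rw [X_pow_dvd_iff] at h ⊢
  intro m hm
  rcases m with _ | m
  · simp
  · rw [coeff_succ_X_mul, coeff_derivative, h _ hm, zero_mul]

/-- the data coming from the Carlitz factorials -/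
structure Data (q d : ℕ) (θ : L) (V : L⟦X⟧) (M w : ℕ → L⟦X⟧) : Prop where
  dpos : 0 < d
  fix : ∀ x : L, x ^ q ^ d = x
  hV : ∀ j, ∃ W, Pol (d - 1) W ∧ coeff (d - 1) W ≠ 0 ∧ V = uu q θ j * W
  M0 : ∀ j, M j ≠ 0
  Msucc : ∀ j, M (j + 1) = br q θ (j + 1) * M j ^ q
  Md : ∀ j, M (j + d) = -w (j + d) * V ^ q ^ j * M j
  wlim : Lim w 1
  wunit : ∀ j, IsUnit (w j)
  walg : ∀ j, IsAlgebraic (Polynomial L) (w j)

variable {d : ℕ} {θ : L} {V : L⟦X⟧} {M w : ℕ → L⟦X⟧}

theorem uu_ne_zero (q : ℕ) (θ : L) (j : ℕ) : uu q θ j ≠ 0 := by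
  intro h
  have := congrArg (coeff 1) h
  rw [uu, map_sub, coeff_C, coeff_one_X, if_neg one_ne_zero] at this
  simp at this

theorem Data.V0 (D : Data q d θ V M w) : V ≠ 0 := by
  obtain ⟨W, -, h2, h3⟩ := D.hV 0
  rw [h3]
  refine mul_ne_zero (uu_ne_zero _ _ _) ?_
  rintro rfl
  simp at h2

theorem deriv_br (h : Setup q τ) (θ : L) (j : ℕ) : d⁄dX L (br q θ (j + 1)) = -1 := by
  rw [br, map_sub, deriv_pow_q h, tt, map_add, derivative_C, derivative_X]
  simp

theorem Data.deriv_M (D : Data q d θ V M w) (h : Setup q τ) (j : ℕ) :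
    d⁄dX L (M (j + 1)) * br q θ (j + 1) = -M (j + 1) := by
  have h1 := deriv_pow_q h (M j) 0
  rw [zero_add, pow_one] at h1
  rw [D.Msucc, Derivation.leibniz, deriv_br h, h1]
  simp only [smul_eq_mul]
  ring

theorem Data.deriv_w (D : Data q d θ V M w) (h : Setup q τ) (R : ℕ → L⟦X⟧)
    (hR : ∀ j, 0 < j → R j * br q θ j = X) (j : ℕ) (hj : d < j) :
    X * d⁄dX L (w j) = w j * (R (j - d) - R j) := by
  obtain ⟨i, rfl⟩ : ∃ i, j = i + 1 + d := ⟨j - d - 1, by omega⟩
  rw [Nat.add_sub_cancel]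
  have h1 := D.deriv_M h i
  have h2 := D.deriv_M h (i + d)
  have e : i + d + 1 = i + 1 + d := by ring
  rw [e, D.Md, Derivation.leibniz, Derivation.leibniz, deriv_pow_q h, map_neg] at h2
  simp only [smul_eq_mul] at h2
  have h3 := hR (i + 1) (by omega)
  have h4 := hR (i + 1 + d) (by omega)
  apply mul_left_cancel₀ (mul_ne_zero (mul_ne_zero (pow_ne_zero (q ^ (i + 1)) D.V0) (D.M0 (i + 1)))
    (mul_ne_zero (br_ne_zero h θ (j := i + 1) (by omega))
      (br_ne_zero h θ (j := i + 1 + d) (by omega))))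
  set b1 := br q θ (i + 1)
  set b2 := br q θ (i + 1 + d)
  set U := V ^ q ^ (i + 1)
  set m := M (i + 1)
  set m' := d⁄dX L m
  set x := w (i + 1 + d)
  set x' := d⁄dX L x
  linear_combination (-(X * b1)) * h2 - (X * x * U * b2) * h1 - (U * m * x * b2) * h3 +
    (U * m * x * b1) * h4

theorem Data.stepA [Finite L] (D : Data q d θ V M w) (h : Setup q τ) (c : ℕ → ℕ) {y : L⟦X⟧}
    (hy : Lim (PP w c) y) (ha : IsAlgebraic (Polynomial L) y) :
    ∀ᶠ j in atTop, (c (j + d) : L) = c j := by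
  classical
  have hex : ∀ j, ∃ R : L⟦X⟧, 0 < j → R * br q θ j = X := by
    intro j
    rcases Nat.eq_zero_or_pos j with h0 | h0
    · exact ⟨0, fun h1 => by omega⟩
    · obtain ⟨R, hR⟩ := exists_R h θ j h0
      exact ⟨R, fun _ => hR⟩
  choose R hR using hex
  let c' : ℕ → ℕ := fun j => if j ≤ d then 0 else c j
  let c'' : ℕ → ℕ := fun j => if j ≤ d then c j else 0
  obtain ⟨z, hz⟩ := PP_lim D.wlim c'
  have hzu : IsUnit z := hz.isUnit fun J => unit_prod D.wunit _ id _
  have h1 : Lim (PP w c'') (PP w c'' (d + 1)) := by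
    apply (Lim.const _).congr
    filter_upwards [eventually_ge_atTop (d + 1)] with J hJ
    apply Finset.prod_subset (Finset.range_mono hJ)
    intro j _ hj
    have : ¬ j ≤ d := fun h2 => hj (Finset.mem_range.2 (by omega))
    simp [c'', this]
  have h2 : y = PP w c'' (d + 1) * z := by
    apply hy.unique
    apply (h1.mul hz).congr
    refine Eventually.of_forall fun J => ?_
    rw [← PP_add]
    congr 1
    funext j
    by_cases hj : j ≤ d <;> simp [c', c'', hj]
  have hza : IsAlgebraic (Polynomial L) z := by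
    have h3 : IsUnit (PP w c'' (d + 1)) := unit_prod D.wunit _ id _
    have h4 : IsAlgebraic (Polynomial L) (PP w c'' (d + 1)) :=
      alg_prod _ _ fun j _ => (D.walg j).pow _
    exact alg_of_mul h3.ne_zero h4 (h2 ▸ ha)
  obtain ⟨zi, hzi⟩ := hzu.exists_right_inv
  have hX : IsAlgebraic (Polynomial L) (X : L⟦X⟧) := by
    have := alg_coe (Polynomial.X : Polynomial L)
    rwa [Polynomial.coe_X] at this
  have hfa : IsAlgebraic (Polynomial L) (X * d⁄dX L z * zi) := by
    refine alg_of_mul hzu.ne_zero hza ?_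
    have : z * (X * d⁄dX L z * zi) = X * d⁄dX L z := by linear_combination (X * d⁄dX L z) * hzi
    rw [this]
    exact hX.mul (alg_deriv h hza)
  have hS : ∀ J, X * d⁄dX L (PP w c' J) =
      PP w c' J * ∑ j ∈ Finset.range J, (c' j : L⟦X⟧) * (R (j - d) - R j) := by
    intro J
    induction J with
    | zero => simp [PP]
    | succ J ih =>
      have h3 : X * d⁄dX L (w J ^ c' J) = w J ^ c' J * ((c' J : L⟦X⟧) * (R (J - d) - R J)) := by
        by_cases hJ : J ≤ d
        · simp [c', hJ]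
        · rw [derivative_pow]
          rcases c' J with _ | n
          · simp
          · rw [Nat.add_sub_cancel, pow_succ]
            linear_combination ((n + 1 : ℕ) : L⟦X⟧) * w J ^ n * D.deriv_w h R hR J (by omega)
      rw [Finset.sum_range_succ, PP, Finset.prod_range_succ, Derivation.leibniz]
      simp only [smul_eq_mul]
      rw [PP] at ih
      linear_combination (∏ j ∈ Finset.range J, w j ^ c' j) * h3 + w J ^ c' J * ih
  have h4 := core h D.dpos D.fix θ V D.hV R hR c' (fun j hj => by simp [c', hj]) _ hfa (by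
    intro N
    filter_upwards [hz N] with J hJ
    have h5 : X * d⁄dX L z * zi - ∑ j ∈ Finset.range J, (c' j : L⟦X⟧) * (R (j - d) - R j) =
        zi * ((PP w c' J - z) * ∑ j ∈ Finset.range J, (c' j : L⟦X⟧) * (R (j - d) - R j) -
          X * d⁄dX L (PP w c' J - z)) := by
      rw [map_sub]
      linear_combination zi * hS J +
        (∑ j ∈ Finset.range J, (c' j : L⟦X⟧) * (R (j - d) - R j)) * hzi
    rw [h5]
    exact (dvd_sub (hJ.mul_right _) (X_mul_deriv_dvd hJ)).mul_left _)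
  filter_upwards [h4, eventually_gt_atTop d] with j h5 h6
  have h7 : ¬ j ≤ d := by omega
  have h8 : ¬ j + d ≤ d := by omega
  simpa [c', h7, h8] using h5

/-- the product of powers of brackets relating `M (j + n)` to `M j` -/
noncomputable def AA (q : ℕ) (g : ℕ → L⟦X⟧) (j : ℕ) : ℕ → L⟦X⟧
  | 0 => 1
  | n + 1 => g (j + n + 1) * AA q g j n ^ q

theorem Data.M_add (D : Data q d θ V M w) (j n : ℕ) :
    M (j + n) = AA q (br q θ) j n * M j ^ q ^ n := by
  induction n with
  | zero => simp [AA]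
  | succ n ih => rw [← add_assoc, D.Msucc, ih, AA, mul_pow, ← pow_mul, ← pow_succ, mul_assoc]

theorem neg_one_pow_q (h : Setup q τ) (e : ℕ) : (-1 : L⟦X⟧) ^ q ^ e = -1 := by
  have h1 := h.sub_pow e 0 1
  rwa [zero_sub, zero_pow (pow_ne_zero _ (by have := h.two_le; omega)), one_pow, zero_sub] at h1

theorem Data.rel (D : Data q d θ V M w) (h : Setup q τ) (j : ℕ) :
    w (j + d + d) * AA q (br q θ) j d = AA q (br q θ) (j + d) d * w (j + d) ^ q ^ d := by
  have h1 := D.M_add (j + d) d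
  have h2 := D.M_add j d
  have h3 := D.Md j
  rw [D.Md (j + d)] at h1
  have h4 : M (j + d) ^ q ^ d = -w (j + d) ^ q ^ d * V ^ q ^ (j + d) * M j ^ q ^ d := by
    rw [h3, mul_pow, mul_pow, neg_pow, neg_one_pow_q h, ← pow_mul, ← pow_add]
    ring
  apply mul_left_cancel₀ (mul_ne_zero (pow_ne_zero (q ^ (j + d)) D.V0)
    (pow_ne_zero (q ^ d) (D.M0 j)))
  rw [h4, h2] at h1
  linear_combination -h1

theorem AA_ne_zero {g : ℕ → L⟦X⟧} (hg : ∀ j, g j ≠ 0) (j n : ℕ) : AA q g j n ≠ 0 := by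
  induction n with
  | zero => simp [AA]
  | succ n ih => exact mul_ne_zero (hg _) (pow_ne_zero _ ih)

theorem AA_alg {g : ℕ → L⟦X⟧} (hg : ∀ j, IsAlgebraic (Polynomial L) (g j)) (j n : ℕ) :
    IsAlgebraic (Polynomial L) (AA q g j n) := by
  induction n with
  | zero => exact isAlgebraic_one
  | succ n ih => exact (hg _).mul (ih.pow _)

theorem alg_X : IsAlgebraic (Polynomial L) (X : L⟦X⟧) := by
  have := alg_coe (Polynomial.X : Polynomial L)
  rwa [Polynomial.coe_X] at this

theorem alg_C (a : L) : IsAlgebraic (Polynomial L) (C a : L⟦X⟧) := by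
  have := alg_coe (Polynomial.C a : Polynomial L)
  rwa [Polynomial.coe_C] at this

theorem alg_uu (q : ℕ) (θ : L) (j : ℕ) : IsAlgebraic (Polynomial L) (uu q θ j) := by
  have h1 : IsAlgebraic (Polynomial L) (C (θ ^ q ^ j - θ) - X : L⟦X⟧) :=
    (alg_C (θ ^ q ^ j - θ)).sub alg_X
  exact h1

theorem alg_br (q : ℕ) (θ : L) (j : ℕ) : IsAlgebraic (Polynomial L) (br q θ j) := by
  have h1 : IsAlgebraic (Polynomial L) (C θ + X : L⟦X⟧) := (alg_C θ).add alg_X
  have h2 : IsAlgebraic (Polynomial L) (tt θ) := h1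
  have h3 : IsAlgebraic (Polynomial L) (tt θ ^ q ^ j - tt θ) := (h2.pow _).sub h2
  exact h3

theorem AA_lim (h : Setup q τ) (hd : 0 < d) (hθ : ∀ x : L, x ^ q ^ d = x) (θ : L) (j n : ℕ) :
    Lim (fun m => AA q (br q θ) (j + m * d) n) (AA q (uu q θ) j n) := by
  induction n with
  | zero => exact Lim.const 1
  | succ n ih =>
    refine Lim.mul ?_ (ih.pow q)
    intro N
    filter_upwards [eventually_ge_atTop N] with m hm
    have h1 : uu q θ (j + m * d + n + 1) = uu q θ (j + n + 1) := by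
      have : j + m * d + n + 1 = j + n + 1 + m * d := by ring
      rw [uu, uu, this, pow_add q, pow_mul θ, pow_fix hθ (Dvd.intro_left m rfl)]
    rw [br_eq h, h1, add_sub_cancel_left]
    apply pow_dvd_pow
    have h2 := lt_q_pow h (j + m * d + n + 1)
    have h3 : m * 1 ≤ m * d := Nat.mul_le_mul_left m hd
    omega

theorem Data.conv (D : Data q d θ V M w) (h : Setup q τ) (c : ℕ → ℕ) {y : L⟦X⟧}
    (hy : Lim (PP w c) y) (hc : ∀ᶠ j in atTop, c (j + d) = c j) :
    IsAlgebraic (Polynomial L) y := by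
  have hq := h.two_le
  have hd := D.dpos
  obtain ⟨J, hJ⟩ := eventually_atTop.1 hc
  have hper : ∀ j, J ≤ j → ∀ m, c (j + m * d) = c j := by
    intro j hj m
    induction m with
    | zero => simp
    | succ m ih => rw [add_mul, one_mul, ← add_assoc, hJ _ (by omega), ih]
  let b : ℕ → L⟦X⟧ := fun m => ∏ r ∈ Finset.range d, w (J + r + m * d + d) ^ c (J + r)
  let α : ℕ → L⟦X⟧ := fun m => ∏ r ∈ Finset.range d, AA q (br q θ) (J + r + m * d) d ^ c (J + r)
  have hb : ∀ m, b (m + 1) * α m = α (m + 1) * b m ^ q ^ d := by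
    intro m
    simp only [b, α]
    rw [← Finset.prod_pow, ← Finset.prod_mul_distrib, ← Finset.prod_mul_distrib]
    apply Finset.prod_congr rfl
    intro r _
    have e : J + r + (m + 1) * d = J + r + m * d + d := by ring
    rw [e, ← mul_pow, D.rel h, mul_pow, ← pow_mul, ← pow_mul, mul_comm (q ^ d)]
  have hP : ∀ m, PP w c (J + d + m * d) = PP w c (J + d) * ∏ i ∈ Finset.range m, b i := by
    intro m
    induction m with
    | zero => simp
    | succ m ih =>
      have e : J + d + (m + 1) * d = J + d + m * d + d := by ring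
      rw [e, Finset.prod_range_succ, ← mul_assoc, ← ih, PP, PP, Finset.prod_range_add]
      congr 1
      apply Finset.prod_congr rfl
      intro r _
      have e1 : J + d + m * d + r = J + r + m * d + d := by ring
      have e2 : J + r + m * d + d = J + r + (m + 1) * d := by ring
      rw [e1]
      congr 1
      rw [e2, hper _ (by omega)]
  have hB : ∀ m, (∏ i ∈ Finset.range m, b i) ^ q ^ d * b 0 * α m =
      (∏ i ∈ Finset.range (m + 1), b i) * α 0 := by
    intro m
    induction m with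
    | zero => simp
    | succ m ih =>
      rw [Finset.prod_range_succ _ (m + 1), Finset.prod_range_succ _ m, mul_pow]
      rw [Finset.prod_range_succ _ m] at ih
      linear_combination b (m + 1) * ih - ((∏ i ∈ Finset.range m, b i) ^ q ^ d * b 0) * hb m
  set P₀ := PP w c (J + d) with hP₀
  let β : L⟦X⟧ := ∏ r ∈ Finset.range d, AA q (uu q θ) (J + r) d ^ c (J + r)
  have hα : Lim α β := Lim.prod _ fun r _ => (AA_lim h hd D.fix θ (J + r) d).pow _
  have ht : ∀ e : ℕ, Tendsto (fun m => J + d + (m + e) * d) atTop atTop := by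
    intro e
    apply tendsto_atTop_mono (f := id) _ tendsto_id
    intro m
    have : (m + e) * 1 ≤ (m + e) * d := Nat.mul_le_mul_left _ hd
    simp only [id]
    omega
  have h1 := (((hy.comp (ht 0)).pow (q ^ d)).mul (Lim.const (b 0 * P₀))).mul hα
  have h2 := (hy.comp (ht 1)).mul (Lim.const (α 0 * P₀ ^ q ^ d))
  have h3 : y ^ q ^ d * (b 0 * P₀) * β = y * (α 0 * P₀ ^ q ^ d) := by
    apply h1.unique
    apply h2.congr
    refine Eventually.of_forall fun m => ?_
    simp only [add_zero]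
    rw [hP, hP, mul_pow]
    linear_combination -(P₀ * P₀ ^ q ^ d) * hB m
  have hwp : ∀ (T : Finset ℕ) (g e : ℕ → ℕ), IsUnit (∏ r ∈ T, w (g r) ^ e r) :=
    unit_prod D.wunit
  have hwa : ∀ (T : Finset ℕ) (g e : ℕ → ℕ),
      IsAlgebraic (Polynomial L) (∏ r ∈ T, w (g r) ^ e r) :=
    fun T g e => alg_prod _ _ fun j _ => (D.walg _).pow _
  have hyu : IsUnit y := hy.isUnit fun J => hwp (Finset.range J) id c
  have hQ : 2 ≤ q ^ d := le_trans hq (Nat.le_self_pow (by omega) q)
  have h4 : (b 0 * P₀ * β) * y ^ (q ^ d - 1) = α 0 * P₀ ^ q ^ d := by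
    apply mul_left_cancel₀ hyu.ne_zero
    have : y ^ q ^ d = y * y ^ (q ^ d - 1) := by
      rw [← pow_succ']
      congr 1
      omega
    rw [← h3, this]
    ring
  have hua : ∀ j, IsAlgebraic (Polynomial L) (uu q θ j) := alg_uu q θ
  have hba : ∀ j, IsAlgebraic (Polynomial L) (br q θ j) := alg_br q θ
  have hb0 : IsUnit (b 0) :=
    hwp (Finset.range d) (fun r => J + r + 0 * d + d) (fun r => c (J + r))
  have hb1 : IsAlgebraic (Polynomial L) (b 0) :=
    hwa (Finset.range d) (fun r => J + r + 0 * d + d) (fun r => c (J + r))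
  have hP0 : IsUnit P₀ := hwp (Finset.range (J + d)) id c
  have hP1 : IsAlgebraic (Polynomial L) P₀ := hwa (Finset.range (J + d)) id c
  have hβ0 : β ≠ 0 :=
    Finset.prod_ne_zero_iff.2 fun r _ => pow_ne_zero _ (AA_ne_zero (uu_ne_zero q θ) _ _)
  have hβ1 : IsAlgebraic (Polynomial L) β := alg_prod _ _ fun r _ => (AA_alg hua _ _).pow _
  have hα1 : IsAlgebraic (Polynomial L) (α 0) := alg_prod _ _ fun r _ => (AA_alg hba _ _).pow _
  have h5 : b 0 * P₀ * β ≠ 0 := mul_ne_zero (mul_ne_zero hb0.ne_zero hP0.ne_zero) hβ0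
  have h6 : IsAlgebraic (Polynomial L) (b 0 * P₀ * β * y ^ (q ^ d - 1)) := by
    rw [h4]
    exact hα1.mul (hP1.pow _)
  have h7 : 0 < q ^ d - 1 := by omega
  exact IsAlgebraic.of_pow h7 (alg_of_mul h5 ((hb1.mul hP1).mul hβ1) h6)

theorem Data.main [Finite L] (D : Data q d θ V M w) (h : Setup q τ) (p : ℕ) (hp : p.Prime)
    [CharP L p] (k : ℕ) : ∀ (c : ℕ → ℕ) (y : L⟦X⟧), (∀ j, c j < p ^ k) → Lim (PP w c) y →
    IsAlgebraic (Polynomial L) y → ∀ᶠ j in atTop, c (j + d) = c j := by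
  induction k with
  | zero =>
    intro c y hc _ _
    refine Eventually.of_forall fun j => ?_
    have h1 := hc j
    have h2 := hc (j + d)
    rw [pow_zero] at h1 h2
    omega
  | succ k ih =>
    intro c y hc hy ha
    obtain ⟨y₀, hy₀⟩ := PP_lim D.wlim fun j => c j % p
    obtain ⟨y₁, hy₁⟩ := PP_lim D.wlim fun j => c j / p
    have h0 : ∀ᶠ j in atTop, c (j + d) % p = c j % p := by
      filter_upwards [D.stepA h c hy ha] with j hj
      exact (CharP.natCast_eq_natCast L p).1 hj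
    have h1 : y = y₀ * y₁ ^ p := by
      apply hy.unique
      apply (hy₀.mul (hy₁.pow p)).congr
      refine Eventually.of_forall fun J => ?_
      rw [← PP_mul, ← PP_add]
      congr 1
      funext j
      exact Nat.mod_add_div' _ _
    have hu : IsUnit y₀ := hy₀.isUnit fun J => unit_prod D.wunit _ id _
    have h2 : IsAlgebraic (Polynomial L) y₁ :=
      IsAlgebraic.of_pow hp.pos (alg_of_mul hu.ne_zero (D.conv h _ hy₀ h0) (h1 ▸ ha))
    have h3 := ih (fun j => c j / p) y₁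
      (fun j => Nat.div_lt_of_lt_mul (by rw [← pow_succ']; exact hc j)) hy₁ h2
    filter_upwards [h0, h3] with j h4 h5
    rw [← Nat.mod_add_div (c (j + d)) p, ← Nat.mod_add_div (c j) p, h4, h5]

end Pool.Agent.H629Z.Yao
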